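import Mathlib

/-! Sums of invariant functions over a finite set with an action of a `2`-group, in characteristic
two: only the fixed points matter. -/

set_option autoImplicit false

namespace Pool.Agent.Helper38.Gamma

open MulAction

theorem nsmul_eq_of_modEq {M : Type*} [AddCommGroup M] (h2 : ∀ m : M, m + m = 0) {a b : ℕ}
    (h : a ≡ b [MOD 2]) (m : M) : a • m = b • m := by
  have key : ∀ n : ℕ, n • m = (n % 2) • m := by
    intro n
    conv_lhs => rw [← Nat.mod_add_div n 2]
    rw [add_nsmul, mul_comm 2, mul_nsmul, two_nsmul]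
    have h3 : (n / 2) • (m + m) = 0 := by rw [h2, nsmul_zero]
    rw [nsmul_add] at h3
    rw [h3, add_zero]
  rw [key a, key b, h]

/-- In characteristic two, the sum of a `P`-invariant function is the sum over the fixed points. -/
theorem sum_eq_sum_fixed {P X M : Type*} [Group P] [MulAction P X] [Fintype X] [AddCommGroup M]
    (hP : IsPGroup 2 P) (h2 : ∀ m : M, m + m = 0) (F : X → M) (hF : ∀ (p : P) x, F (p • x) = F x)
    [DecidablePred fun x => x ∈ fixedPoints P X] :
    ∑ x, F x = ∑ x with x ∈ fixedPoints P X, F x := by
  classical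
  have : Fact (Nat.Prime 2) := ⟨Nat.prime_two⟩
  -- group by the values of `F`
  have hL : ∑ x, F x = ∑ m ∈ Finset.univ.image F, (Finset.univ.filter fun x => F x = m).card • m := by
    rw [← Finset.sum_fiberwise_of_maps_to (s := Finset.univ) (t := Finset.univ.image F) (g := F)
      (fun x _ => Finset.mem_image_of_mem F (Finset.mem_univ x))]
    refine Finset.sum_congr rfl fun m _ => ?_
    rw [Finset.sum_congr rfl (g := fun _ => m) (fun x hx => (Finset.mem_filter.mp hx).2),
      Finset.sum_const]
  have hR : ∑ x with x ∈ fixedPoints P X, F x = ∑ m ∈ Finset.univ.image F,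
      ((Finset.univ.filter fun x => x ∈ fixedPoints P X).filter fun x => F x = m).card • m := by
    rw [← Finset.sum_fiberwise_of_maps_to (s := Finset.univ.filter fun x => x ∈ fixedPoints P X)
      (t := Finset.univ.image F) (g := F)
      (fun x _ => Finset.mem_image_of_mem F (Finset.mem_univ x))]
    refine Finset.sum_congr rfl fun m _ => ?_
    rw [Finset.sum_congr rfl (g := fun _ => m) (fun x hx => (Finset.mem_filter.mp hx).2),
      Finset.sum_const]
  rw [hL, hR]
  refine Finset.sum_congr rfl fun m _ => nsmul_eq_of_modEq h2 ?_ m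
  -- the fibre is stable
  let Y : Type _ := {x : X // F x = m}
  let _ : MulAction P Y :=
    { smul := fun p x => ⟨p • x.1, by rw [hF]; exact x.2⟩
      one_smul := fun x => Subtype.ext (one_smul P x.1)
      mul_smul := fun p q x => Subtype.ext (mul_smul p q x.1) }
  have h := hP.card_modEq_card_fixedPoints Y
  have e1 : Nat.card Y = (Finset.univ.filter fun x => F x = m).card := by
    rw [Nat.card_eq_fintype_card, Fintype.card_subtype]
  have e2 : Nat.card (fixedPoints P Y) =
      ((Finset.univ.filter fun x => x ∈ fixedPoints P X).filter fun x => F x = m).card := by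
    rw [Finset.filter_filter, ← Fintype.card_subtype, ← Nat.card_eq_fintype_card]
    refine Nat.card_congr
      { toFun := fun y => ⟨y.1.1, fun p => congrArg Subtype.val (y.2 p), y.1.2⟩
        invFun := fun x => ⟨⟨x.1, x.2.2⟩, fun p => Subtype.ext (x.2.1 p)⟩
        left_inv := fun y => rfl
        right_inv := fun x => rfl }
  rw [e1, e2] at h
  exact h

/-- Only the constant functions contribute to the sum over all functions on a set with a transitive
action of a `2`-group. -/
theorem sum_fun_eq_sum_const {P ι X M : Type*} [Group P] [MulAction P ι] [MulAction.IsPretransitive P ι]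
    [Fintype ι] [Nonempty ι] [DecidableEq ι] [Fintype X] [AddCommGroup M] (hP : IsPGroup 2 P)
    (h2 : ∀ m : M, m + m = 0) (F : (ι → X) → M) (hF : ∀ (p : P) (v : ι → X), F (fun i => v (p • i)) = F v) :
    ∑ v : ι → X, F v = ∑ x : X, F (fun _ => x) := by
  classical
  let _ : MulAction P (ι → X) := arrowAction
  have h := sum_eq_sum_fixed (X := ι → X) hP h2 F (fun p v => by
    have := hF p⁻¹ v
    exact this)
  rw [h]
  symm
  refine Finset.sum_bij (fun x _ => fun _ => x) ?_ ?_ ?_ ?_
  · intro x _
    rw [Finset.mem_filter]
    exact ⟨Finset.mem_univ _, fun p => rfl⟩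
  · intro x _ y _ hxy
    exact congrFun hxy (Classical.arbitrary ι)
  · intro v hv
    rw [Finset.mem_filter] at hv
    refine ⟨v (Classical.arbitrary ι), Finset.mem_univ _, ?_⟩
    funext i
    obtain ⟨p, hp⟩ := MulAction.exists_smul_eq P i (Classical.arbitrary ι)
    have h1 : v (p⁻¹ • (Classical.arbitrary ι)) = v (Classical.arbitrary ι) :=
      congrFun (hv.2 p) (Classical.arbitrary ι)
    rw [← h1, ← hp, inv_smul_smul]
  · intro x _
    rfl

end Pool.Agent.Helper38.Gamma
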