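import Mathlib
import Pool.Agent.Helper38.Gamma.Orbit

/-! The parity of the number of nondegenerate slices of a tensor over the field with two
elements. -/

set_option autoImplicit false

namespace Pool.Agent.Helper38.Gamma

open Finset

section Basic

variable {J : Type*} [Fintype J] [DecidableEq J]

theorem zmod2_add_self (a : ZMod 2) : a + a = 0 := by
  revert a; decide

theorem det_zmod2 (M : Matrix J J (ZMod 2)) : M.det = ∑ σ : Equiv.Perm J, ∏ i, M (σ i) i := by
  rw [Matrix.det_apply']
  refine Finset.sum_congr rfl fun σ _ => ?_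
  have h : (((Equiv.Perm.sign σ : ℤˣ) : ℤ) : ZMod 2) = 1 := by
    rcases Int.units_eq_one_or (Equiv.Perm.sign σ) with h | h <;> rw [h] <;> decide
  rw [h, one_mul]

theorem sum_prod_apply (h : J → J) [Decidable (Function.Bijective h)] :
    ∑ x : J → ZMod 2, ∏ l, x (h l) = if Function.Bijective h then 1 else 0 := by
  classical
  split_ifs with hb
  · have h1 : ∀ x : J → ZMod 2, ∏ l, x (h l) = ∏ j, x j := fun x => hb.prod_comp x
    simp_rw [h1]
    have h2 := Finset.prod_univ_sum (fun _ : J => (Finset.univ : Finset (ZMod 2)))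
      (fun _ a => a)
    rw [Fintype.piFinset_univ] at h2
    rw [← h2]
    have h3 : ∑ a : ZMod 2, a = 1 := by decide
    rw [h3, Finset.prod_const_one]
  · have hs : ¬ Function.Surjective h := fun hs => hb (Finite.surjective_iff_bijective.mp hs)
    obtain ⟨j, hj⟩ : ∃ j, ∀ l, h l ≠ j := by
      by_contra hcon
      push Not at hcon
      exact hs hcon
    have hval : ∀ x : J → ZMod 2, ∏ l, (Function.update x j (x j + 1)) (h l) = ∏ l, x (h l) := by
      intro x
      refine Finset.prod_congr rfl fun l _ => ?_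
      rw [Function.update_of_ne (hj l)]
    refine Finset.sum_involution (fun x _ => Function.update x j (x j + 1)) ?_ ?_ ?_ ?_
    · intro x _
      rw [hval]
      exact zmod2_add_self _
    · intro x _ _ h3
      have h4 := congrFun h3 j
      rw [Function.update_self] at h4
      have h5 : ∀ a : ZMod 2, a + 1 ≠ a := by decide
      exact h5 _ h4
    · intro x _
      exact Finset.mem_univ _
    · intro x _
      funext l
      by_cases hl : l = j
      · subst hl
        simp only [Function.update_self]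
        have h5 : ∀ a : ZMod 2, a + 1 + 1 = a := by decide
        exact h5 _
      · rw [Function.update_of_ne hl, Function.update_of_ne hl]

end Basic

/-- Extend a family on the complement of `i0` by a value at `i0`. -/
def ext {ι : Type*} [DecidableEq ι] {α : Type*} (i0 : ι) (x : α) (v : {i // i ≠ i0} → α) : ι → α :=
  fun i => if h : i = i0 then x else v ⟨i, h⟩

theorem ext_self {ι : Type*} [DecidableEq ι] {α : Type*} (i0 : ι) (x : α)
    (v : {i // i ≠ i0} → α) : ext i0 x v i0 = x := by
  rw [ext, dif_pos rfl]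

theorem ext_ne {ι : Type*} [DecidableEq ι] {α : Type*} (i0 : ι) (x : α)
    (v : {i // i ≠ i0} → α) (i : {i // i ≠ i0}) : ext i0 x v i = v i := by
  rw [ext, dif_neg i.2]

theorem sum_ext {ι : Type*} [Fintype ι] [DecidableEq ι] {α M : Type*} [Fintype α]
    [AddCommMonoid M] (i0 : ι) (F : (ι → α) → M) :
    ∑ v : ι → α, F v = ∑ x : α, ∑ v' : {i // i ≠ i0} → α, F (ext i0 x v') := by
  classical
  rw [← Finset.sum_product']
  refine Finset.sum_bij' (fun v _ => (v i0, fun i => v i.1)) (fun x _ => ext i0 x.1 x.2)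
    (fun v _ => by simp) (fun x _ => by simp) ?_ ?_ ?_
  · intro v _
    funext i
    by_cases h : i = i0
    · subst h; rw [ext_self]
    · exact ext_ne i0 _ _ ⟨i, h⟩
  · rintro ⟨x, v⟩ _
    refine Prod.ext (ext_self _ _ _) ?_
    funext i
    exact ext_ne i0 _ _ i
  · intro v _
    congr 1
    funext i
    by_cases h : i = i0
    · subst h; rw [ext_self]
    · exact (ext_ne i0 (v i0) (fun i => v i.1) ⟨i, h⟩).symm

/-- A sum over families of permutations. -/
theorem sum_perm_family {J κ : Type*} [Fintype J] [DecidableEq J] [Fintype κ] [DecidableEq κ]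
    (H : (J → κ → J) → ZMod 2) [∀ h : J → J, Decidable (Function.Bijective h)] :
    ∑ G : J → κ → J, (∏ i : κ, if Function.Bijective (fun l => G l i) then (1 : ZMod 2) else 0) * H G =
      ∑ θ : κ → Equiv.Perm J, H (fun l i => θ i l) := by
  classical
  have h1 : ∀ G : J → κ → J,
      (∏ i : κ, if Function.Bijective (fun l => G l i) then (1 : ZMod 2) else 0) * H G =
      if ∀ i, Function.Bijective (fun l => G l i) then H G else 0 := by
    intro G
    split_ifs with h
    · rw [Finset.prod_congr rfl (g := fun _ => (1 : ZMod 2)) (fun i _ => if_pos (h i)),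
        Finset.prod_const_one, one_mul]
    · push Not at h
      obtain ⟨i, hi⟩ := h
      rw [Finset.prod_eq_zero (Finset.mem_univ i) (if_neg hi), zero_mul]
  rw [Finset.sum_congr rfl (fun G _ => h1 G), ← Finset.sum_filter]
  symm
  refine Finset.sum_bij (fun θ _ => fun l i => θ i l) ?_ ?_ ?_ ?_
  · intro θ _
    rw [Finset.mem_filter]
    exact ⟨Finset.mem_univ _, fun i => (θ i).bijective⟩
  · intro θ _ θ' _ h
    funext i
    ext l
    exact congrFun (congrFun h l) i
  · intro G hG
    rw [Finset.mem_filter] at hG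
    exact ⟨fun i => Equiv.ofBijective _ (hG.2 i), Finset.mem_univ _, rfl⟩
  · intro θ _
    rfl

/-- The key identity. -/
theorem sum_det {P J ι : Type*} [Group P] [MulAction P ι] [MulAction.IsPretransitive P ι]
    (hP : IsPGroup 2 P) [Fintype J] [DecidableEq J] [Fintype ι] [DecidableEq ι]
    (T : (ι → J) → J → ZMod 2) (hT : ∀ (p : P) (g : ι → J) (l : J), T (fun i => g (p • i)) l = T g l)
    (i0 : ι) :
    ∑ v : {i // i ≠ i0} → J → ZMod 2,
      (Matrix.of fun j l => ∑ g : {i // i ≠ i0} → J, (∏ i, v i (g i)) * T (ext i0 j g) l).det =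
    (Matrix.of fun j l => T (fun _ => j) l).det := by
  classical
  have : Nonempty ι := ⟨i0⟩
  -- expand
  have h1 : ∀ v : {i // i ≠ i0} → J → ZMod 2,
      (Matrix.of fun j l => ∑ g : {i // i ≠ i0} → J, (∏ i, v i (g i)) * T (ext i0 j g) l).det =
      ∑ σ : Equiv.Perm J, ∑ G : J → {i // i ≠ i0} → J,
        (∏ i, ∏ l, v i (G l i)) * ∏ l, T (ext i0 (σ l) (G l)) l := by
    intro v
    rw [det_zmod2]
    refine Finset.sum_congr rfl fun σ _ => ?_
    have h2 := Finset.prod_univ_sum (fun _ : J => (Finset.univ : Finset ({i // i ≠ i0} → J)))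
      (fun l g => (∏ i, v i (g i)) * T (ext i0 (σ l) g) l)
    rw [Fintype.piFinset_univ] at h2
    simp only [Matrix.of_apply]
    rw [h2]
    refine Finset.sum_congr rfl fun G _ => ?_
    rw [Finset.prod_mul_distrib, Finset.prod_comm]
  rw [Finset.sum_congr rfl (fun v _ => h1 v), Finset.sum_comm]
  have h3 : ∀ σ : Equiv.Perm J, ∑ v : {i // i ≠ i0} → J → ZMod 2, ∑ G : J → {i // i ≠ i0} → J,
        (∏ i, ∏ l, v i (G l i)) * ∏ l, T (ext i0 (σ l) (G l)) l =
      ∑ θ : {i // i ≠ i0} → Equiv.Perm J, ∏ l, T (ext i0 (σ l) (fun i => θ i l)) l := by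
    intro σ
    rw [Finset.sum_comm]
    rw [← sum_perm_family
      (fun G : J → {i // i ≠ i0} → J => ∏ l, T (ext i0 (σ l) (G l)) l)]
    refine Finset.sum_congr rfl fun G _ => ?_
    rw [← Finset.sum_mul]
    congr 1
    have h4 := Finset.prod_univ_sum (fun _ : {i // i ≠ i0} => (Finset.univ : Finset (J → ZMod 2)))
      (fun i x => ∏ l, x (G l i))
    rw [Fintype.piFinset_univ] at h4
    rw [← h4]
    refine Finset.prod_congr rfl fun i _ => ?_
    exact sum_prod_apply _
  rw [Finset.sum_congr rfl (fun σ _ => h3 σ)]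
  -- recombine
  have h5 := sum_ext i0 (fun θ : ι → Equiv.Perm J => ∏ l, T (fun i => θ i l) l)
  have h6 : ∀ (σ : Equiv.Perm J) (θ : {i // i ≠ i0} → Equiv.Perm J) (l : J),
      (fun i => (ext i0 σ θ i) l) = ext i0 (σ l) (fun i => θ i l) := by
    intro σ θ l
    funext i
    by_cases h : i = i0
    · subst h; rw [ext_self, ext_self]
    · rw [ext_ne i0 _ _ ⟨i, h⟩, ext_ne i0 _ _ ⟨i, h⟩]
  have h7 : ∑ σ : Equiv.Perm J, ∑ θ : {i // i ≠ i0} → Equiv.Perm J,
      ∏ l, T (ext i0 (σ l) (fun i => θ i l)) l =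
      ∑ θ : ι → Equiv.Perm J, ∏ l, T (fun i => θ i l) l := by
    rw [h5]
    refine Finset.sum_congr rfl fun σ _ => Finset.sum_congr rfl fun θ _ => ?_
    refine Finset.prod_congr rfl fun l _ => ?_
    rw [h6]
  rw [h7, sum_fun_eq_sum_const hP zmod2_add_self
    (fun θ : ι → Equiv.Perm J => ∏ l, T (fun i => θ i l) l)
    (fun p θ => Finset.prod_congr rfl fun l _ => hT p (fun i => θ i l) l), det_zmod2]
  rfl

end Pool.Agent.Helper38.Gamma
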