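import Mathlib
import Pool.Agent.Helper38.Gamma.Count

/-! Fixed vectors with a nondegenerate slice, over the field with two elements. -/

set_option autoImplicit false

namespace Pool.Agent.Helper38.Gamma

open Finset Module

section Additive

variable {ι P R V W : Type*} [Fintype ι] [DecidableEq ι] [Nonempty ι] [Group P] [MulAction P ι]
  [MulAction.IsPretransitive P ι] [CommRing R] [AddCommGroup V] [Module R V] [AddCommGroup W]
  [Module R W]

/-- On the diagonal an invariant multilinear map is additive (characteristic two). -/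
theorem diag_sum (hP : IsPGroup 2 P) (h2 : ∀ m : W, m + m = 0)
    (f : MultilinearMap R (fun _ : ι => V) W) (hinv : ∀ (p : P) (v : ι → V), f (fun i => v (p • i)) = f v)
    {α : Type*} [Fintype α] (x : α → V) :
    f (fun _ => ∑ a, x a) = ∑ a, f (fun _ => x a) := by
  classical
  rw [f.map_sum (fun _ a => x a)]
  exact sum_fun_eq_sum_const hP h2 (fun r : ι → α => f (fun i => x (r i)))
    (fun p r => hinv p (fun i => x (r i)))

theorem diag_add (hP : IsPGroup 2 P) (h2 : ∀ m : W, m + m = 0)
    (f : MultilinearMap R (fun _ : ι => V) W) (hinv : ∀ (p : P) (v : ι → V), f (fun i => v (p • i)) = f v)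
    (x y : V) : f (fun _ => x + y) = f (fun _ => x) + f (fun _ => y) := by
  have h := diag_sum hP h2 f hinv (fun b : Bool => cond b x y)
  simpa using h

omit [DecidableEq ι] [Nonempty ι] in
theorem diag_smul (f : MultilinearMap R (fun _ : ι => V) W) (c : R) (x : V) :
    f (fun _ => c • x) = c ^ Fintype.card ι • f (fun _ => x) := by
  have h := f.map_smul_univ (fun _ => c) (fun _ => x)
  simpa using h

end Additive

section Expand

variable {ι R V W J K : Type*} [Fintype ι] [DecidableEq ι] [CommRing R] [AddCommGroup V]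
  [Module R V] [AddCommGroup W] [Module R W] [Fintype J] [DecidableEq J]

omit [DecidableEq J] in
theorem repr_expand (b : Basis J R V) (c : Basis K R W) (f : MultilinearMap R (fun _ : ι => V) W)
    (v : ι → V) (l : K) :
    c.repr (f v) l = ∑ g : ι → J, (∏ i, b.repr (v i) (g i)) * c.repr (f fun i => b (g i)) l := by
  have h1 : v = fun i => ∑ j, b.repr (v i) j • b j := by
    funext i
    exact (b.sum_repr (v i)).symm
  conv_lhs => rw [h1]
  rw [f.map_sum (fun i j => b.repr (v i) j • b j), map_sum, Finsupp.finsetSum_apply]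
  refine Finset.sum_congr rfl fun g _ => ?_
  rw [f.map_smul_univ (fun i => b.repr (v i) (g i)) (fun i => b (g i)), map_smul,
    Finsupp.smul_apply, smul_eq_mul]

theorem repr_expand_ext (b : Basis J R V) (c : Basis K R W)
    (f : MultilinearMap R (fun _ : ι => V) W) (i0 : ι) (j : J) (v : {i // i ≠ i0} → V) (l : K) :
    c.repr (f (ext i0 (b j) v)) l =
      ∑ g : {i // i ≠ i0} → J, (∏ i, b.repr (v i) (g i)) * c.repr (f fun i => b (ext i0 j g i)) l := by
  classical
  rw [repr_expand b c f, sum_ext i0]
  have hprod : ∀ (j' : J) (g : {i // i ≠ i0} → J),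
      (∏ i, b.repr (ext i0 (b j) v i) (ext i0 j' g i)) =
      (if j' = j then 1 else 0) * ∏ i, b.repr (v i) (g i) := by
    intro j' g
    rw [← Finset.mul_prod_erase Finset.univ _ (Finset.mem_univ i0)]
    congr 1
    · rw [ext_self, ext_self, b.repr_self, Finsupp.single_apply]
      simp only [eq_comm]
    · rw [Finset.prod_subtype (s := Finset.univ.erase i0) (p := fun i => i ≠ i0) (by simp)]
      refine Finset.prod_congr rfl fun i _ => ?_
      rw [ext_ne, ext_ne]
  simp_rw [hprod]
  rw [Finset.sum_eq_single j]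
  · refine Finset.sum_congr rfl fun g _ => ?_
    rw [if_pos rfl, one_mul]
  · intro j' _ hj'
    refine Finset.sum_eq_zero fun g _ => ?_
    rw [if_neg hj', zero_mul, zero_mul]
  · intro h
    exact absurd (Finset.mem_univ j) h

end Expand

/-- The linear map obtained by fixing all arguments but one. -/
def slice {ι R V W : Type*} [DecidableEq ι] [CommRing R] [AddCommGroup V]
    [Module R V] [AddCommGroup W] [Module R W] (f : MultilinearMap R (fun _ : ι => V) W) (i0 : ι)
    (v : {i // i ≠ i0} → V) : V →ₗ[R] W :=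
  f.toLinearMap (ext i0 0 v) i0

theorem ext_update {ι : Type*} [DecidableEq ι] {α : Type*} (i0 : ι) (x y : α)
    (v : {i // i ≠ i0} → α) : Function.update (ext i0 y v) i0 x = ext i0 x v := by
  funext i
  by_cases h : i = i0
  · subst h; rw [Function.update_self, ext_self]
  · rw [Function.update_of_ne h, ext_ne i0 _ _ ⟨i, h⟩, ext_ne i0 _ _ ⟨i, h⟩]

theorem slice_apply {ι R V W : Type*} [DecidableEq ι] [CommRing R] [AddCommGroup V]
    [Module R V] [AddCommGroup W] [Module R W] (f : MultilinearMap R (fun _ : ι => V) W) (i0 : ι)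
    (v : {i // i ≠ i0} → V) (x : V) : slice f i0 v x = f (ext i0 x v) := by
  rw [slice, MultilinearMap.toLinearMap_apply, ext_update]

theorem bijective_iff_det {R V W J : Type*} [Field R] [AddCommGroup V] [Module R V]
    [AddCommGroup W] [Module R W] [Fintype J] [DecidableEq J] (b : Basis J R V) (c : Basis J R W)
    (L : V →ₗ[R] W) : Function.Bijective L ↔ (Matrix.of fun j l => c.repr (L (b j)) l).det ≠ 0 := by
  have h1 : (Matrix.of fun j l => c.repr (L (b j)) l) = (LinearMap.toMatrix b c L).transpose := by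
    ext j l
    rw [Matrix.transpose_apply, LinearMap.toMatrix_apply, Matrix.of_apply]
  rw [h1, Matrix.det_transpose]
  constructor
  · intro h
    have h2 := LinearEquiv.isUnit_det (LinearEquiv.ofBijective L h) b c
    exact h2.ne_zero
  · intro h
    have h2 : IsUnit (LinearMap.toMatrix b c L).det := isUnit_iff_ne_zero.mpr h
    have h3 := (LinearEquiv.ofIsUnitDet h2).bijective
    exact h3

theorem ext_comp {ι : Type*} [DecidableEq ι] {α β : Type*} (φ : α → β) (i0 : ι) (x : α)
    (v : {i // i ≠ i0} → α) : (fun i => φ (ext i0 x v i)) = ext i0 (φ x) (fun i => φ (v i)) := by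
  funext i
  by_cases h : i = i0
  · subst h; rw [ext_self, ext_self]
  · rw [ext_ne i0 _ _ ⟨i, h⟩, ext_ne i0 _ _ ⟨i, h⟩]

/-- The number of nondegenerate slices is odd. -/
theorem card_slices {P ι V W : Type*} [Group P] [MulAction P ι] [MulAction.IsPretransitive P ι]
    [Fintype ι] [DecidableEq ι] (hP : IsPGroup 2 P)
    [AddCommGroup V] [Module (ZMod 2) V] [Finite V] [AddCommGroup W] [Module (ZMod 2) W]
    (f : MultilinearMap (ZMod 2) (fun _ : ι => V) W)
    (hinv : ∀ (p : P) (v : ι → V), f (fun i => v (p • i)) = f v)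
    (hφ : Function.Bijective fun x => f (fun _ => x)) (i0 : ι) :
    ¬ 2 ∣ Nat.card {v : {i // i ≠ i0} → V // Function.Bijective (slice f i0 v)} := by
  classical
  have : Nonempty ι := ⟨i0⟩
  have : Fintype V := Fintype.ofFinite V
  have h2 : ∀ m : W, m + m = 0 := by
    intro m
    have h3 : (2 : ZMod 2) • m = 0 := by
      rw [show (2 : ZMod 2) = 0 from by decide, zero_smul]
    rw [← two_smul (ZMod 2) m, h3]
  -- the linear map on the diagonal
  let φ : V →ₗ[ZMod 2] W := AddMonoidHom.toZModLinearMap 2
    (AddMonoidHom.mk' (fun x => f (fun _ => x)) (diag_add hP h2 f hinv))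
  have hφ' : Function.Bijective φ := hφ
  let e : V ≃ₗ[ZMod 2] W := LinearEquiv.ofBijective φ hφ'
  let b := Module.finBasis (ZMod 2) V
  let c := b.map e
  let J := Fin (Module.finrank (ZMod 2) V)
  -- the tensor
  let T : (ι → J) → J → ZMod 2 := fun g l => c.repr (f fun i => b (g i)) l
  have hT : ∀ (p : P) (g : ι → J) (l : J), T (fun i => g (p • i)) l = T g l := by
    intro p g l
    simp only [T]
    rw [hinv p (fun i => b (g i))]
  have hQ : (Matrix.of fun j l => T (fun _ => j) l) = 1 := by
    ext j l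
    have h3 : f (fun _ => b j) = c j := by
      simp only [c, Basis.map_apply]
      rfl
    rw [Matrix.of_apply, Matrix.one_apply]
    simp only [T]
    rw [h3, c.repr_self, Finsupp.single_apply]
  have hkey := sum_det hP T hT i0
  rw [hQ, Matrix.det_one] at hkey
  -- coordinates
  let E : ({i // i ≠ i0} → V) ≃ ({i // i ≠ i0} → J → ZMod 2) :=
    Equiv.piCongrRight fun _ => b.equivFun.toEquiv
  have hM : ∀ v : {i // i ≠ i0} → V,
      (Matrix.of fun j l => ∑ g : {i // i ≠ i0} → J, (∏ i, E v i (g i)) * T (ext i0 j g) l) =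
      (Matrix.of fun j l => c.repr (slice f i0 v (b j)) l) := by
    intro v
    ext j l
    rw [Matrix.of_apply, Matrix.of_apply, slice_apply, repr_expand_ext b c f i0 j v l]
    rfl
  have h4 : ∑ v : {i // i ≠ i0} → V,
      (if Function.Bijective (slice f i0 v) then (1 : ZMod 2) else 0) = 1 := by
    refine Eq.trans ?_ hkey
    rw [← Equiv.sum_comp E]
    refine Finset.sum_congr rfl fun v _ => ?_
    rw [hM v]
    have h5 := bijective_iff_det b c (slice f i0 v)
    have h6 : ∀ a : ZMod 2, a ≠ 0 → a = 1 := by decide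
    split_ifs with h7
    · exact (h6 _ (h5.mp h7)).symm
    · by_contra h8
      exact h7 (h5.mpr (Ne.symm h8))
  rw [Finset.sum_boole] at h4
  rw [Nat.card_eq_fintype_card, Fintype.card_subtype]
  intro hdvd
  have h5 := (ZMod.natCast_eq_zero_iff _ 2).mpr hdvd
  rw [h5] at h4
  exact absurd h4 (by decide)

/-- Fixed vectors, over the field with two elements. -/
theorem exists_fixed_F2 {P ι G V W : Type*} [Group P] [MulAction P ι] [MulAction.IsPretransitive P ι]
    [Fintype ι] [DecidableEq ι] (hP : IsPGroup 2 P) [Group G] (hG : IsPGroup 2 G)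
    [AddCommGroup V] [Module (ZMod 2) V] [Finite V] [AddCommGroup W] [Module (ZMod 2) W]
    (ρ : G → V → V) (hρ1 : ∀ v, ρ 1 v = v) (hρ : ∀ g h v, ρ (g * h) v = ρ g (ρ h v))
    (σ : G → W → W) (hσ1 : ∀ v, σ 1 v = v) (hσ : ∀ g h v, σ (g * h) v = σ g (σ h v))
    (f : MultilinearMap (ZMod 2) (fun _ : ι => V) W)
    (hinv : ∀ (p : P) (v : ι → V), f (fun i => v (p • i)) = f v)
    (hequiv : ∀ (g : G) (v : ι → V), f (fun i => ρ g (v i)) = σ g (f v))
    (hφ : Function.Bijective fun x => f (fun _ => x)) (i0 : ι) :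
    ∃ v : {i // i ≠ i0} → V, (∀ g i, ρ g (v i) = v i) ∧ Function.Bijective (slice f i0 v) := by
  classical
  have : Fact (Nat.Prime 2) := ⟨Nat.prime_two⟩
  have hρb : ∀ g, Function.Bijective (ρ g) := fun g =>
    Function.bijective_iff_has_inverse.mpr ⟨ρ g⁻¹, fun v => by rw [← hρ, inv_mul_cancel, hρ1],
      fun v => by rw [← hρ, mul_inv_cancel, hρ1]⟩
  have hσb : ∀ g, Function.Bijective (σ g) := fun g =>
    Function.bijective_iff_has_inverse.mpr ⟨σ g⁻¹, fun v => by rw [← hσ, inv_mul_cancel, hσ1],
      fun v => by rw [← hσ, mul_inv_cancel, hσ1]⟩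
  have hst : ∀ (g : G) (v : {i // i ≠ i0} → V), Function.Bijective (slice f i0 v) →
      Function.Bijective (slice f i0 (fun i => ρ g (v i))) := by
    intro g v hv
    have h1 : (slice f i0 (fun i => ρ g (v i)) : V → W) = σ g ∘ (slice f i0 v) ∘ ρ g⁻¹ := by
      funext x
      simp only [Function.comp_apply]
      rw [slice_apply, slice_apply, ← hequiv, ext_comp, ← hρ, mul_inv_cancel, hρ1]
    rw [h1]
    exact (hσb g).comp (hv.comp (hρb g⁻¹))
  let _ : MulAction G {v : {i // i ≠ i0} → V // Function.Bijective (slice f i0 v)} :=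
    { smul := fun g v => ⟨fun i => ρ g (v.1 i), hst g v.1 v.2⟩
      one_smul := fun v => Subtype.ext (funext fun i => hρ1 _)
      mul_smul := fun g h v => Subtype.ext (funext fun i => hρ g h _) }
  obtain ⟨v, hv⟩ := hG.nonempty_fixed_point_of_prime_not_dvd_card
    {v : {i // i ≠ i0} → V // Function.Bijective (slice f i0 v)}
    (card_slices hP f hinv hφ i0)
  exact ⟨v.1, fun g i => congrFun (congrArg Subtype.val (hv g)) i, v.2⟩

end Pool.Agent.Helper38.Gamma
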