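import Mathlib
import Pool.Agent.Helper38.Gamma.Fixed

/-! Fixed vectors with a nondegenerate slice, over a finite field of characteristic two. -/

set_option autoImplicit false

namespace Pool.Agent.Helper38.Gamma

open Finset Module

theorem exists_fixed_finite {F P ι G V W : Type*} [Field F] [Finite F] [CharP F 2] [Group P]
    [MulAction P ι] [MulAction.IsPretransitive P ι]
    [Fintype ι] [DecidableEq ι] (hP : IsPGroup 2 P) [Group G] (hG : IsPGroup 2 G)
    [AddCommGroup V] [Module F V] [FiniteDimensional F V] [AddCommGroup W] [Module F W]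
    (ρ : Representation F G V) (σ : Representation F G W)
    (f : MultilinearMap F (fun _ : ι => V) W)
    (hinv : ∀ (p : P) (v : ι → V), f (fun i => v (p • i)) = f v)
    (hequiv : ∀ (g : G) (v : ι → V), f (fun i => ρ g (v i)) = σ g (f v))
    (hφ : Function.Bijective fun x => f (fun _ => x)) (i0 : ι) :
    ∃ v : {i // i ≠ i0} → V, (∀ g i, ρ g (v i) = v i) ∧ Function.Bijective (slice f i0 v) := by
  classical
  let _ : Algebra (ZMod 2) F := ZMod.algebra F 2
  let _ : Module (ZMod 2) V := Module.compHom V (algebraMap (ZMod 2) F)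
  let _ : Module (ZMod 2) W := Module.compHom W (algebraMap (ZMod 2) F)
  have hV : IsScalarTower (ZMod 2) F V := ⟨fun a b v => by
    rw [Algebra.smul_def, mul_smul]; rfl⟩
  have hW : IsScalarTower (ZMod 2) F W := ⟨fun a b v => by
    rw [Algebra.smul_def, mul_smul]; rfl⟩
  have : Finite V := Module.finite_of_finite F
  obtain ⟨v, hv, hb⟩ := exists_fixed_F2 hP hG (fun g => ρ g)
    (fun v => by rw [map_one]; rfl) (fun g h v => by rw [map_mul]; rfl) (fun g => σ g)
    (fun v => by rw [map_one]; rfl) (fun g h v => by rw [map_mul]; rfl)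
    (f.restrictScalars (ZMod 2)) hinv hequiv hφ i0
  refine ⟨v, hv, ?_⟩
  have h1 : (slice f i0 v : V → W) = slice (f.restrictScalars (ZMod 2)) i0 v := by
    funext x
    rw [slice_apply, slice_apply]
    rfl
  rw [h1]
  exact hb

end Pool.Agent.Helper38.Gamma
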