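import Mathlib
import Pool.Agent.Helper38.Gamma.FiniteField

/-! Specialisation: from finite fields to arbitrary infinite fields of characteristic two. -/

set_option autoImplicit false

namespace Pool.Agent.Helper38.Gamma

open Finset Module

section Ax

variable {P ι G J J0 : Type} [Group P] [MulAction P ι] [Fintype ι] [DecidableEq ι] [Group G]
  [Fintype G] [Fintype J] [DecidableEq J] [Fintype J0]

variable (P) in
/-- The data of an equivariant multilinear map in coordinates. -/
structure Ax (R : Type) [CommRing R] (A B L : G → J → J → R) (T : (ι → J) → J → R)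
    (u lam : J0 → J → R) : Prop where
  A_one : ∀ a b, A 1 a b = if a = b then 1 else 0
  A_mul : ∀ g h a b, A (g * h) a b = ∑ c, A g a c * A h c b
  B_one : ∀ a b, B 1 a b = if a = b then 1 else 0
  B_mul : ∀ g h a b, B (g * h) a b = ∑ c, B g a c * B h c b
  inv : ∀ (p : P) (h : ι → J) l, T (fun i => h (p • i)) l = T h l
  equiv : ∀ (g : G) (h : ι → J) l, ∑ h' : ι → J, (∏ i, A g (h' i) (h i)) * T h' l =
    ∑ l', B g l l' * T h l'
  diag : ∀ j l, T (fun _ => j) l = if j = l then 1 else 0
  spl : ∀ a b, (if a = b then (1 : R) else 0) = ∑ j, u j a * lam j b +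
    ∑ g, ∑ c, L g a c * (A g c b - if c = b then 1 else 0)

variable {R S : Type} [CommRing R] [CommRing S]

theorem Ax.map (φ : R →+* S) {A B L : G → J → J → R} {T : (ι → J) → J → R}
    {u lam : J0 → J → R} (h : Ax P R A B L T u lam) :
    Ax P S (fun g a b => φ (A g a b)) (fun g a b => φ (B g a b)) (fun g a b => φ (L g a b))
      (fun g l => φ (T g l)) (fun j a => φ (u j a)) (fun j a => φ (lam j a)) where
  A_one a b := by rw [h.A_one]; split_ifs <;> simp
  A_mul g k a b := by rw [h.A_mul, map_sum]; simp only [map_mul]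
  B_one a b := by rw [h.B_one]; split_ifs <;> simp
  B_mul g k a b := by rw [h.B_mul, map_sum]; simp only [map_mul]
  inv p k l := by rw [h.inv]
  equiv g k l := by
    have h1 := congrArg φ (h.equiv g k l)
    simpa only [map_sum, map_mul, map_prod] using h1
  diag j l := by rw [h.diag]; split_ifs <;> simp
  spl a b := by
    have h1 := congrArg φ (h.spl a b)
    have h2 : ∀ (p : Prop) [Decidable p], φ (if p then (1 : R) else 0) = if p then 1 else 0 := by
      intro p _; split_ifs <;> simp
    simpa only [map_sum, map_mul, map_add, map_sub, h2] using h1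

theorem Ax.comap (φ : R →+* S) (hφ : Function.Injective φ) {A B L : G → J → J → R}
    {T : (ι → J) → J → R} {u lam : J0 → J → R}
    (h : Ax P S (fun g a b => φ (A g a b)) (fun g a b => φ (B g a b)) (fun g a b => φ (L g a b))
      (fun g l => φ (T g l)) (fun j a => φ (u j a)) (fun j a => φ (lam j a))) :
    Ax P R A B L T u lam := by
  have h2 : ∀ (p : Prop) [Decidable p], φ (if p then (1 : R) else 0) = if p then 1 else 0 := by
    intro p _; split_ifs <;> simp
  refine ⟨fun a b => hφ ?_, fun g k a b => hφ ?_, fun a b => hφ ?_, fun g k a b => hφ ?_,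
    fun p k l => hφ ?_, fun g k l => hφ ?_, fun j l => hφ ?_, fun a b => hφ ?_⟩
  · rw [h2]; exact h.A_one a b
  · simp only [map_sum, map_mul]; exact h.A_mul g k a b
  · rw [h2]; exact h.B_one a b
  · simp only [map_sum, map_mul]; exact h.B_mul g k a b
  · exact h.inv p k l
  · simp only [map_sum, map_mul, map_prod]; exact h.equiv g k l
  · rw [h2]; exact h.diag j l
  · simp only [map_sum, map_mul, map_add, map_sub, h2]; exact h.spl a b

/-- The matrix of a slice at the point with coordinates `y`. -/
def slMat (T : (ι → J) → J → R) (u : J0 → J → R) (i0 : ι) (y : {i // i ≠ i0} → J0 → R) :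
    Matrix J J R :=
  Matrix.of fun j l => ∑ g : {i // i ≠ i0} → J, (∏ i, ∑ j0, y i j0 * u j0 (g i)) * T (ext i0 j g) l

omit [DecidableEq J] in
theorem slMat_map (φ : R →+* S) (T : (ι → J) → J → R) (u : J0 → J → R) (i0 : ι)
    (y : {i // i ≠ i0} → J0 → R) :
    slMat (fun g l => φ (T g l)) (fun j a => φ (u j a)) i0 (fun i j => φ (y i j)) =
      (slMat T u i0 y).map φ := by
  ext j l
  simp only [slMat, Matrix.of_apply, Matrix.map_apply, map_sum, map_mul, map_prod]

theorem det_slMat_map (φ : R →+* S) (T : (ι → J) → J → R) (u : J0 → J → R) (i0 : ι)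
    (y : {i // i ≠ i0} → J0 → R) :
    (slMat (fun g l => φ (T g l)) (fun j a => φ (u j a)) i0 (fun i j => φ (y i j))).det =
      φ (slMat T u i0 y).det := by
  rw [slMat_map, RingHom.map_det]
  rfl

/-- The multilinear map with coefficients `T`. -/
def mlin (R : Type) [CommRing R] (T : (ι → J) → J → R) : MultilinearMap R (fun _ : ι => J → R) (J → R) :=
  MultilinearMap.pi fun l => ∑ h : ι → J, T h l •
    (MultilinearMap.mkPiAlgebra R ι R).compLinearMap (fun i => LinearMap.proj (h i))

omit [DecidableEq J] in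
theorem mlin_apply (T : (ι → J) → J → R) (v : ι → J → R) (l : J) :
    mlin R T v l = ∑ h : ι → J, (∏ i, v i (h i)) * T h l := by
  rw [mlin, MultilinearMap.pi_apply, _root_.sum_apply]
  refine Finset.sum_congr rfl fun h _ => ?_
  rw [_root_.smul_apply, MultilinearMap.compLinearMap_apply, MultilinearMap.mkPiAlgebra_apply,
    smul_eq_mul, mul_comm]
  rfl

theorem mlin_single (T : (ι → J) → J → R) (h : ι → J) (l : J) :
    mlin R T (fun i => Pi.single (h i) 1) l = T h l := by
  rw [mlin_apply, Finset.sum_eq_single h]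
  · simp
  · intro h' _ hne
    obtain ⟨i, hi⟩ : ∃ i, h' i ≠ h i := by
      by_contra hcon
      push Not at hcon
      exact hne (funext hcon)
    rw [Finset.prod_eq_zero (Finset.mem_univ i), zero_mul]
    rw [Pi.single_apply, if_neg hi]
  · intro hh
    exact absurd (Finset.mem_univ h) hh

/-- The representation with matrices `A`. -/
def repOf (A : G → J → J → R) (h1 : ∀ a b, A 1 a b = if a = b then 1 else 0)
    (h2 : ∀ g h a b, A (g * h) a b = ∑ c, A g a c * A h c b) : Representation R G (J → R) where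
  toFun g := Matrix.mulVecLin (Matrix.of (A g))
  map_one' := by
    have h3 : Matrix.of (A 1) = 1 := by
      ext a b
      rw [Matrix.of_apply, h1, Matrix.one_apply]
    rw [h3, Matrix.mulVecLin_one]
    rfl
  map_mul' g h := by
    have h3 : Matrix.of (A (g * h)) = Matrix.of (A g) * Matrix.of (A h) := by
      ext a b
      rw [Matrix.of_apply, h2, Matrix.mul_apply]
      rfl
    rw [h3, Matrix.mulVecLin_mul]
    rfl

omit [Fintype G] in
theorem repOf_apply (A : G → J → J → R) (h1 : ∀ a b, A 1 a b = if a = b then 1 else 0)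
    (h2 : ∀ g h a b, A (g * h) a b = ∑ c, A g a c * A h c b) (g : G) (x : J → R) (a : J) :
    repOf A h1 h2 g x a = ∑ b, A g a b * x b := rfl

theorem finite_case {F : Type} [Field F] [Finite F] [CharP F 2] [MulAction.IsPretransitive P ι]
    (hP : IsPGroup 2 P) (hG : IsPGroup 2 G) {A B L : G → J → J → F} {T : (ι → J) → J → F}
    {u lam : J0 → J → F} (h : Ax P F A B L T u lam) (i0 : ι) :
    ∃ y : {i // i ≠ i0} → J0 → F, (slMat T u i0 y).det ≠ 0 := by
  classical
  have : Nonempty ι := ⟨i0⟩
  have h2F : ∀ m : F, m + m = 0 := fun m => CharTwo.add_self_eq_zero m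
  have h2 : ∀ m : J → F, m + m = 0 := fun m => funext fun j => h2F _
  have hinv : ∀ (p : P) (v : ι → J → F), mlin F T (fun i => v (p • i)) = mlin F T v := by
    intro p v
    funext l
    rw [mlin_apply, mlin_apply]
    rw [← Equiv.sum_comp (Equiv.arrowCongr (MulAction.toPerm p).symm (Equiv.refl J))]
    refine Finset.sum_congr rfl fun h' _ => ?_
    have e1 : ((Equiv.arrowCongr (MulAction.toPerm p).symm (Equiv.refl J)) h') =
        fun i => h' (p • i) := by
      funext i
      simp [Equiv.arrowCongr_apply]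
    rw [e1, h.inv p h' l]
    congr 1
    exact Equiv.prod_comp (MulAction.toPerm p) (fun i => v i (h' i))
  have hequiv : ∀ (g : G) (v : ι → J → F), mlin F T (fun i => repOf A h.A_one h.A_mul g (v i)) =
      repOf B h.B_one h.B_mul g (mlin F T v) := by
    intro g v
    funext l
    rw [mlin_apply, repOf_apply]
    have e1 : ∀ h' : ι → J, (∏ i, repOf A h.A_one h.A_mul g (v i) (h' i)) * T h' l =
        ∑ k : ι → J, (∏ i, A g (h' i) (k i)) * (∏ i, v i (k i)) * T h' l := by
      intro h'
      rw [← Finset.sum_mul]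
      congr 1
      have e2 := Finset.prod_univ_sum (fun _ : ι => (Finset.univ : Finset J))
        (fun i c => A g (h' i) c * v i c)
      rw [Fintype.piFinset_univ] at e2
      refine Eq.trans ?_ (e2.trans ?_)
      · rfl
      · refine Finset.sum_congr rfl fun k _ => ?_
        rw [Finset.prod_mul_distrib]
    rw [Finset.sum_congr rfl (fun h' _ => e1 h'), Finset.sum_comm]
    have e3 : ∀ l', B g l l' * mlin F T v l' = ∑ k : ι → J, (∏ i, v i (k i)) * (B g l l' * T k l') := by
      intro l'
      rw [mlin_apply, Finset.mul_sum]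
      refine Finset.sum_congr rfl fun k _ => ?_
      ring
    have e4 : ∑ l', B g l l' * mlin F T v l' =
        ∑ k : ι → J, ∑ l', (∏ i, v i (k i)) * (B g l l' * T k l') :=
      (Finset.sum_congr rfl (fun l' _ => e3 l')).trans Finset.sum_comm
    rw [e4]
    refine Finset.sum_congr rfl fun k _ => ?_
    rw [← Finset.mul_sum, ← h.equiv g k l, Finset.mul_sum]
    refine Finset.sum_congr rfl fun h' _ => ?_
    ring
  have hφval : ∀ (x : J → F) (l : J), mlin F T (fun _ => x) l = x l ^ Fintype.card ι := by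
    intro x l
    rw [mlin_apply]
    rw [sum_fun_eq_sum_const hP h2F (fun h' : ι → J => (∏ i, x (h' i)) * T h' l)
      (fun p h' => by
        rw [h.inv p h' l]
        congr 1
        exact Equiv.prod_comp (MulAction.toPerm p) (fun i => x (h' i)))]
    rw [Finset.sum_eq_single l]
    · rw [h.diag, if_pos rfl, mul_one, Finset.prod_const, Finset.card_univ]
    · intro j _ hj
      rw [h.diag, if_neg hj, mul_zero]
    · intro hl
      exact absurd (Finset.mem_univ l) hl
  have hφ : Function.Bijective fun x : J → F => mlin F T (fun _ => x) := by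
    refine Finite.injective_iff_bijective.mp ?_
    intro x y hxy
    have e1 : mlin F T (fun _ => x + y) = 0 := by
      rw [diag_add hP h2 (mlin F T) hinv x y]
      have : mlin F T (fun _ => x) = mlin F T (fun _ => y) := hxy
      rw [this, h2]
    funext l
    have e2 := congrFun e1 l
    rw [hφval, Pi.zero_apply] at e2
    have e3 : (x + y) l = 0 := by
      by_contra hne
      exact pow_ne_zero _ hne e2
    have e4 : x l + y l = 0 := e3
    exact (CharTwo.add_eq_zero.mp e4)
  obtain ⟨v, hv, hb⟩ := exists_fixed_finite hP hG (repOf A h.A_one h.A_mul)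
    (repOf B h.B_one h.B_mul) (mlin F T) hinv hequiv hφ i0
  refine ⟨fun i j0 => ∑ b, lam j0 b * v i b, ?_⟩
  -- the fixed vectors are combinations of the `u`
  have hval : ∀ (i : {i // i ≠ i0}) (a : J),
      ∑ j0, (∑ b, lam j0 b * v i b) * u j0 a = v i a := by
    intro i a
    have e1 : v i a = ∑ b, (if a = b then (1 : F) else 0) * v i b := by
      simp
    have e2 : ∀ g c, ∑ b, (A g c b - if c = b then 1 else 0) * v i b = 0 := by
      intro g c
      have e3 : ∑ b, A g c b * v i b = v i c := congrFun (hv g i) c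
      simp only [sub_mul, Finset.sum_sub_distrib, e3]
      simp
    have e1' : v i a = ∑ b, (∑ j, u j a * lam j b) * v i b +
        ∑ b, (∑ g, ∑ c, L g a c * (A g c b - if c = b then 1 else 0)) * v i b := by
      rw [e1, ← Finset.sum_add_distrib]
      refine Finset.sum_congr rfl fun b _ => ?_
      rw [h.spl a b, add_mul]
    rw [e1']
    have e4 : ∑ b, (∑ g, ∑ c, L g a c * (A g c b - if c = b then 1 else 0)) * v i b = 0 := by
      have e5 : ∀ b, (∑ g, ∑ c, L g a c * (A g c b - if c = b then 1 else 0)) * v i b =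
          ∑ g, ∑ c, L g a c * ((A g c b - if c = b then 1 else 0) * v i b) := by
        intro b
        rw [Finset.sum_mul]
        refine Finset.sum_congr rfl fun g _ => ?_
        rw [Finset.sum_mul]
        refine Finset.sum_congr rfl fun c _ => ?_
        ring
      rw [Finset.sum_congr rfl (fun b _ => e5 b), Finset.sum_comm]
      refine Finset.sum_eq_zero fun g _ => ?_
      rw [Finset.sum_comm]
      refine Finset.sum_eq_zero fun c _ => ?_
      rw [← Finset.mul_sum, e2, mul_zero]
    rw [e4, add_zero]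
    simp only [Finset.sum_mul]
    rw [Finset.sum_comm]
    refine Finset.sum_congr rfl fun b _ => Finset.sum_congr rfl fun j _ => ?_
    ring
  have hM : slMat T u i0 (fun i j0 => ∑ b, lam j0 b * v i b) =
      Matrix.of fun j l => (Pi.basisFun F J).repr (slice (mlin F T) i0 v (Pi.basisFun F J j)) l := by
    ext j l
    rw [Matrix.of_apply, slice_apply, repr_expand_ext (Pi.basisFun F J) (Pi.basisFun F J)]
    simp only [slMat, Matrix.of_apply]
    refine Finset.sum_congr rfl fun g _ => ?_
    congr 1
    · refine Finset.prod_congr rfl fun i _ => ?_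
      rw [hval, Pi.basisFun_repr]
    · rw [Pi.basisFun_repr]
      simp only [Pi.basisFun_apply]
      exact (mlin_single T (ext i0 j g) l).symm
  rw [hM]
  exact (bijective_iff_det (Pi.basisFun F J) (Pi.basisFun F J) _).mp hb

theorem infinite_case {k : Type} [Field k] [Infinite k] [CharP k 2] [MulAction.IsPretransitive P ι]
    (hP : IsPGroup 2 P) (hG : IsPGroup 2 G) {A B L : G → J → J → k} {T : (ι → J) → J → k}
    {u lam : J0 → J → k} (h : Ax P k A B L T u lam) (i0 : ι) :
    ∃ y : {i // i ≠ i0} → J0 → k, (slMat T u i0 y).det ≠ 0 := by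
  classical
  let _ : Algebra (ZMod 2) k := ZMod.algebra k 2
  -- the finite set of all coefficients
  let S : Set k := Set.range (fun x : G × J × J => A x.1 x.2.1 x.2.2) ∪
    Set.range (fun x : G × J × J => B x.1 x.2.1 x.2.2) ∪
    Set.range (fun x : G × J × J => L x.1 x.2.1 x.2.2) ∪
    Set.range (fun x : (ι → J) × J => T x.1 x.2) ∪
    Set.range (fun x : J0 × J => u x.1 x.2) ∪ Set.range (fun x : J0 × J => lam x.1 x.2)
  have hS : S.Finite := by
    refine Set.Finite.union (Set.Finite.union (Set.Finite.union (Set.Finite.union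
      (Set.Finite.union ?_ ?_) ?_) ?_) ?_) ?_ <;> exact Set.finite_range _
  let A0 : Subalgebra (ZMod 2) k := Algebra.adjoin (ZMod 2) S
  have hsub : ∀ x ∈ S, x ∈ A0 := fun x hx => Algebra.subset_adjoin hx
  have mA : ∀ g a b, A g a b ∈ A0 := fun g a b =>
    hsub _ (Or.inl (Or.inl (Or.inl (Or.inl (Or.inl ⟨(g, a, b), rfl⟩)))))
  have mB : ∀ g a b, B g a b ∈ A0 := fun g a b =>
    hsub _ (Or.inl (Or.inl (Or.inl (Or.inl (Or.inr ⟨(g, a, b), rfl⟩)))))
  have mL : ∀ g a b, L g a b ∈ A0 := fun g a b =>
    hsub _ (Or.inl (Or.inl (Or.inl (Or.inr ⟨(g, a, b), rfl⟩))))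
  have mT : ∀ g l, T g l ∈ A0 := fun g l => hsub _ (Or.inl (Or.inl (Or.inr ⟨(g, l), rfl⟩)))
  have mu : ∀ j a, u j a ∈ A0 := fun j a => hsub _ (Or.inl (Or.inr ⟨(j, a), rfl⟩))
  have ml : ∀ j a, lam j a ∈ A0 := fun j a => hsub _ (Or.inr ⟨(j, a), rfl⟩)
  have hfg : A0.FG := ⟨hS.toFinset, by rw [Set.Finite.coe_toFinset]⟩
  have hft : Algebra.FiniteType (ZMod 2) A0 := Subalgebra.fg_iff_finiteType A0 |>.mp hfg
  -- a residue field
  obtain ⟨m, hm⟩ := Ideal.exists_maximal A0
  let _ : Field (A0 ⧸ m) := Ideal.Quotient.field m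
  have hft2 : Algebra.FiniteType (ZMod 2) (A0 ⧸ m) := inferInstance
  have hfin : Module.Finite (ZMod 2) (A0 ⧸ m) :=
    finite_of_finite_type_of_isJacobsonRing (ZMod 2) (A0 ⧸ m)
  have hfin2 : Finite (A0 ⧸ m) := Module.finite_of_finite (ZMod 2)
  have hchar : CharP (A0 ⧸ m) 2 :=
    charP_of_injective_ringHom (algebraMap (ZMod 2) (A0 ⧸ m)).injective 2
  -- descend the data
  have h1 : Ax P A0 (fun g a b => ⟨A g a b, mA g a b⟩) (fun g a b => ⟨B g a b, mB g a b⟩)
      (fun g a b => ⟨L g a b, mL g a b⟩) (fun g l => ⟨T g l, mT g l⟩)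
      (fun j a => ⟨u j a, mu j a⟩) (fun j a => ⟨lam j a, ml j a⟩) :=
    Ax.comap (A0.val : A0 →+* k) Subtype.val_injective h
  have h2 := h1.map (Ideal.Quotient.mk m)
  obtain ⟨y, hy⟩ := finite_case hP hG h2 i0
  -- the generic point
  let σ : Type := {i // i ≠ i0} × J0
  let D : MvPolynomial σ A0 := (slMat (fun g l => MvPolynomial.C ⟨T g l, mT g l⟩)
    (fun j a => MvPolynomial.C ⟨u j a, mu j a⟩) i0 (fun i j => MvPolynomial.X (i, j))).det
  have hD : D ≠ 0 := by
    intro h0
    apply hy
    have h3 := det_slMat_map (MvPolynomial.eval₂Hom (Ideal.Quotient.mk m) (fun s : σ => y s.1 s.2))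
      (fun g l => MvPolynomial.C ⟨T g l, mT g l⟩) (fun j a => MvPolynomial.C ⟨u j a, mu j a⟩) i0
      (fun i j => (MvPolynomial.X (i, j) : MvPolynomial σ A0))
    have h4 : MvPolynomial.eval₂Hom (Ideal.Quotient.mk m) (fun s : σ => y s.1 s.2) D = 0 := by
      rw [h0, map_zero]
    rw [show (slMat (fun g l => MvPolynomial.C ⟨T g l, mT g l⟩)
      (fun j a => MvPolynomial.C ⟨u j a, mu j a⟩) i0
      (fun i j => (MvPolynomial.X (i, j) : MvPolynomial σ A0))).det = D from rfl, h4] at h3
    simpa only [MvPolynomial.coe_eval₂Hom, MvPolynomial.eval₂_C, MvPolynomial.eval₂_X] using h3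
  have hD' : MvPolynomial.map (A0.val : A0 →+* k) D ≠ 0 := by
    intro h0
    apply hD
    apply MvPolynomial.map_injective (A0.val : A0 →+* k) Subtype.val_injective
    rw [h0, map_zero]
  obtain ⟨x, hx⟩ : ∃ x : σ → k, MvPolynomial.eval x (MvPolynomial.map (A0.val : A0 →+* k) D) ≠ 0 := by
    by_contra hcon
    push Not at hcon
    exact hD' (MvPolynomial.funext fun x => by rw [hcon x, map_zero])
  refine ⟨fun i j => x (i, j), ?_⟩
  have h3 := det_slMat_map ((MvPolynomial.eval x).comp (MvPolynomial.map (A0.val : A0 →+* k)))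
      (fun g l => MvPolynomial.C ⟨T g l, mT g l⟩) (fun j a => MvPolynomial.C ⟨u j a, mu j a⟩) i0
      (fun i j => (MvPolynomial.X (i, j) : MvPolynomial σ A0))
  rw [show (slMat (fun g l => MvPolynomial.C ⟨T g l, mT g l⟩)
      (fun j a => MvPolynomial.C ⟨u j a, mu j a⟩) i0
      (fun i j => (MvPolynomial.X (i, j) : MvPolynomial σ A0))).det = D from rfl] at h3
  simp only [RingHom.comp_apply, MvPolynomial.map_C, MvPolynomial.eval_C, MvPolynomial.map_X,
    MvPolynomial.eval_X] at h3
  intro h5
  apply hx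
  rw [← h3]
  exact h5

end Ax

end Pool.Agent.Helper38.Gamma
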