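import Mathlib
import Pool.Agent.Helper38.Gamma.Special

/-! Fixed vectors with a nondegenerate slice, over an infinite field of characteristic two. -/

set_option autoImplicit false

namespace Pool.Agent.Helper38.Gamma

open Finset Module

section

variable {k G V : Type} [Field k] [Group G] [Fintype G] [AddCommGroup V] [Module k V]

/-- The vectors fixed by a representation. -/
def fixedSub (ρ : Representation k G V) : Submodule k V where
  carrier := {v | ∀ g, ρ g v = v}
  add_mem' := by
    intro a b ha hb g
    rw [map_add, ha, hb]
  zero_mem' := by intro g; rw [map_zero]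
  smul_mem' := by
    intro c x hx g
    rw [map_smul, hx]

omit [Fintype G] in
/-- The identity is the sum of a projection to the fixed vectors and a combination of the
operators `ρ g - 1`. -/
theorem exists_splitting (ρ : Representation k G V) :
    ∃ (p : V →ₗ[k] fixedSub ρ) (L : (G → V) →ₗ[k] V), ∀ x : V,
      x = (p x : V) + L (fun g => ρ g x - x) := by
  classical
  obtain ⟨p, hp⟩ := LinearMap.exists_leftInverse_of_injective (fixedSub ρ).subtype
    (LinearMap.ker_eq_bot.mpr (fixedSub ρ).injective_subtype)
  let Δ : V →ₗ[k] (G → V) := LinearMap.pi fun g => ρ g - LinearMap.id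
  have hΔ : ∀ x g, Δ x g = ρ g x - x := fun x g => rfl
  obtain ⟨r, hr⟩ := LinearMap.exists_rightInverse_of_surjective Δ.rangeRestrict
    (LinearMap.range_eq_top.mpr Δ.surjective_rangeRestrict)
  obtain ⟨p2, hp2⟩ := LinearMap.exists_leftInverse_of_injective (LinearMap.range Δ).subtype
    (LinearMap.ker_eq_bot.mpr (LinearMap.range Δ).injective_subtype)
  let pr : V →ₗ[k] V := (fixedSub ρ).subtype ∘ₗ p
  refine ⟨p, (LinearMap.id - pr) ∘ₗ r ∘ₗ p2, fun x => ?_⟩
  have h1 : p2 (Δ x) = Δ.rangeRestrict x := LinearMap.congr_fun hp2 (Δ.rangeRestrict x)
  have h2 : Δ (r (Δ.rangeRestrict x)) = Δ x := by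
    have := LinearMap.congr_fun hr (Δ.rangeRestrict x)
    exact congrArg Subtype.val this
  have h3 : x - r (Δ.rangeRestrict x) ∈ fixedSub ρ := by
    intro g
    have h4 := congrFun h2 g
    rw [hΔ, hΔ] at h4
    rw [map_sub]
    rw [sub_eq_sub_iff_add_eq_add] at h4 ⊢
    rw [add_comm x]
    exact h4.symm
  have h5 : ∀ w ∈ fixedSub ρ, pr w = w := by
    intro w hw
    have := LinearMap.congr_fun hp ⟨w, hw⟩
    exact congrArg Subtype.val this
  have h6 := h5 _ h3
  rw [map_sub] at h6
  have h7 : (fun g => ρ g x - x) = Δ x := rfl
  rw [h7]
  simp only [LinearMap.comp_apply, LinearMap.sub_apply, LinearMap.id_apply, h1]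
  have h8 : pr x = (p x : V) := rfl
  rw [← h8]
  have h9 : x = (x - r (Δ.rangeRestrict x)) + r (Δ.rangeRestrict x) := by abel
  rw [← h6] at h9
  conv_lhs => rw [h9]
  abel

end

theorem exists_fixed {k P ι G V W J : Type} [Field k] [Infinite k] [CharP k 2] [Group P]
    [MulAction P ι] [MulAction.IsPretransitive P ι] [Fintype ι] [DecidableEq ι] (hP : IsPGroup 2 P)
    [Group G] [Finite G] (hG : IsPGroup 2 G) [AddCommGroup V] [Module k V] [FiniteDimensional k V]
    [AddCommGroup W] [Module k W] (ρ : Representation k G V) (σ : Representation k G W)
    (f : MultilinearMap k (fun _ : ι => V) W)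
    (hinv : ∀ (p : P) (v : ι → V), f (fun i => v (p • i)) = f v)
    (hequiv : ∀ (g : G) (v : ι → V), f (fun i => ρ g (v i)) = σ g (f v))
    [Fintype J] [DecidableEq J] (b : Basis J k V) (c : Basis J k W)
    (hbc : ∀ j, f (fun _ => b j) = c j) (i0 : ι) :
    ∃ v : {i // i ≠ i0} → V, (∀ g i, ρ g (v i) = v i) ∧ Function.Bijective (slice f i0 v) := by
  classical
  have : Fintype G := Fintype.ofFinite G
  obtain ⟨p, L, hpL⟩ := exists_splitting ρ
  let u0 := Module.finBasis k (fixedSub ρ)
  let J0 : Type := Fin (Module.finrank k (fixedSub ρ))
  let A : G → J → J → k := fun g a b' => b.repr (ρ g (b b')) a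
  let B : G → J → J → k := fun g a b' => c.repr (σ g (c b')) a
  let T : (ι → J) → J → k := fun h l => c.repr (f fun i => b (h i)) l
  let LL : G → J → J → k := fun g a c' => b.repr (L (Pi.single g (b c'))) a
  let u : J0 → J → k := fun j a => b.repr (u0 j : V) a
  let lam : J0 → J → k := fun j b' => u0.repr (p (b b')) j
  have hAx : Ax P k A B LL T u lam :=
    { A_one := fun a b' => by
        simp only [A]
        rw [map_one, Module.End.one_apply, b.repr_self, Finsupp.single_apply]
        simp only [eq_comm]
      A_mul := fun g h a b' => by
        simp only [A]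
        rw [map_mul, Module.End.mul_apply]
        conv_lhs => rw [← b.sum_repr (ρ h (b b'))]
        rw [map_sum, map_sum, Finsupp.finsetSum_apply]
        refine Finset.sum_congr rfl fun c' _ => ?_
        rw [map_smul, map_smul, Finsupp.smul_apply, smul_eq_mul, mul_comm]
      B_one := fun a b' => by
        simp only [B]
        rw [map_one, Module.End.one_apply, c.repr_self, Finsupp.single_apply]
        simp only [eq_comm]
      B_mul := fun g h a b' => by
        simp only [B]
        rw [map_mul, Module.End.mul_apply]
        conv_lhs => rw [← c.sum_repr (σ h (c b'))]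
        rw [map_sum, map_sum, Finsupp.finsetSum_apply]
        refine Finset.sum_congr rfl fun c' _ => ?_
        rw [map_smul, map_smul, Finsupp.smul_apply, smul_eq_mul, mul_comm]
      inv := fun q h l => by
        simp only [T]
        rw [hinv q (fun i => b (h i))]
      equiv := fun g h l => by
        simp only [T, A, B]
        rw [← repr_expand b c f (fun i => ρ g (b (h i))) l, hequiv]
        conv_lhs => rw [← c.sum_repr (f fun i => b (h i))]
        rw [map_sum, map_sum, Finsupp.finsetSum_apply]
        refine Finset.sum_congr rfl fun c' _ => ?_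
        rw [map_smul, map_smul, Finsupp.smul_apply, smul_eq_mul, mul_comm]
      diag := fun j l => by
        simp only [T]
        rw [hbc, c.repr_self, Finsupp.single_apply]
      spl := fun a b' => by
        have h1 : (if a = b' then (1 : k) else 0) = b.repr (b b') a := by
          rw [b.repr_self, Finsupp.single_apply]
          simp only [eq_comm]
        rw [h1]
        conv_lhs => rw [hpL (b b')]
        rw [map_add, Finsupp.add_apply]
        congr 1
        · have h2 : (p (b b') : V) = ∑ j, u0.repr (p (b b')) j • (u0 j : V) := by
            have h3 := congrArg (fixedSub ρ).subtype (u0.sum_repr (p (b b')))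
            rw [map_sum] at h3
            exact h3.symm
          rw [h2, map_sum, Finsupp.finsetSum_apply]
          refine Finset.sum_congr rfl fun j _ => ?_
          rw [map_smul, Finsupp.smul_apply, smul_eq_mul, mul_comm]
        · have h2 : (fun g => ρ g (b b') - b b') =
              ∑ g, ∑ c', (A g c' b' - if c' = b' then 1 else 0) • Pi.single g (b c') := by
            funext g0
            rw [Finset.sum_apply]
            have h3 : ∀ g, (∑ c', (A g c' b' - if c' = b' then 1 else 0) •
                (Pi.single g (b c') : G → V)) g0 =
                if g = g0 then ∑ c', (A g c' b' - if c' = b' then 1 else 0) • b c' else 0 := by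
              intro g
              rw [Finset.sum_apply]
              split_ifs with hg
              · subst hg
                refine Finset.sum_congr rfl fun c' _ => ?_
                rw [Pi.smul_apply, Pi.single_eq_same]
              · refine Finset.sum_eq_zero fun c' _ => ?_
                rw [Pi.smul_apply, Pi.single_eq_of_ne (Ne.symm hg), smul_zero]
            rw [Finset.sum_congr rfl (fun g _ => h3 g), Finset.sum_ite_eq' Finset.univ g0]
            rw [if_pos (Finset.mem_univ g0)]
            simp only [sub_smul, Finset.sum_sub_distrib]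
            congr 1
            · exact (b.sum_repr (ρ g0 (b b'))).symm
            · simp
          rw [h2, map_sum, map_sum, Finsupp.finsetSum_apply]
          refine Finset.sum_congr rfl fun g _ => ?_
          rw [map_sum, map_sum, Finsupp.finsetSum_apply]
          refine Finset.sum_congr rfl fun c' _ => ?_
          rw [map_smul, map_smul, Finsupp.smul_apply, smul_eq_mul, mul_comm] }
  obtain ⟨y, hy⟩ := infinite_case hP hG hAx i0
  refine ⟨fun i => ∑ j, y i j • (u0 j : V), ?_, ?_⟩
  · intro g i
    rw [map_sum]
    refine Finset.sum_congr rfl fun j _ => ?_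
    rw [map_smul]
    congr 1
    exact (u0 j).2 g
  · rw [bijective_iff_det b c]
    have hM : slMat T u i0 y = Matrix.of fun j l =>
        c.repr (slice f i0 (fun i => ∑ j, y i j • (u0 j : V)) (b j)) l := by
      ext j l
      rw [Matrix.of_apply, slice_apply, repr_expand_ext b c]
      simp only [slMat, Matrix.of_apply]
      refine Finset.sum_congr rfl fun g _ => ?_
      congr 1
      refine Finset.prod_congr rfl fun i _ => ?_
      rw [map_sum, Finsupp.finsetSum_apply]
      refine Finset.sum_congr rfl fun j' _ => ?_
      rw [map_smul, Finsupp.smul_apply, smul_eq_mul]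
    rw [← hM]
    exact hy

end Pool.Agent.Helper38.Gamma
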