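import Mathlib
import Pool.Agent.Helper38.Gamma.General

/-! A fixed vector with a nondegenerate slice splits off. -/

set_option autoImplicit false

namespace Pool.Agent.Helper38.Gamma

open Finset Module

/-- A representation is indecomposable if it is not a direct sum of two nonzero
subrepresentations. -/
def Indec {k G V : Type} [Field k] [Group G] [AddCommGroup V] [Module k V]
    (ρ : Representation k G V) : Prop :=
  ∀ U W : Submodule k V, (∀ g, ∀ x ∈ U, ρ g x ∈ U) → (∀ g, ∀ x ∈ W, ρ g x ∈ W) →
    IsCompl U W → U = ⊥ ∨ W = ⊥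

theorem ext_update_ne {ι : Type*} [DecidableEq ι] {α : Type*} (i0 : ι) (x y : α)
    (v : {i // i ≠ i0} → α) (i1 : {i // i ≠ i0}) :
    ext i0 x (Function.update v i1 y) = Function.update (ext i0 x v) i1 y := by
  funext i
  by_cases h : i = i0
  · subst h
    rw [ext_self, Function.update_of_ne (Ne.symm i1.2), ext_self]
  · rw [ext_ne i0 _ _ ⟨i, h⟩]
    by_cases h1 : (⟨i, h⟩ : {i // i ≠ i0}) = i1
    · subst h1
      rw [Function.update_self, Function.update_self]
    · have h2 : i ≠ i1.1 := fun h3 => h1 (Subtype.ext h3)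
      rw [Function.update_of_ne h1, Function.update_of_ne h2, ext_ne i0 _ _ ⟨i, h⟩]

section

variable {k ι V W : Type} [Field k] [DecidableEq ι] [AddCommGroup V] [Module k V]
    [AddCommGroup W] [Module k W]

/-- Two free arguments. -/
def slice2 (f : MultilinearMap k (fun _ : ι => V) W) (i0 : ι) (v : {i // i ≠ i0} → V)
    (i1 : {i // i ≠ i0}) : V →ₗ[k] V →ₗ[k] W :=
  LinearMap.mk₂ k (fun y x => f (ext i0 x (Function.update v i1 y)))
    (fun y y' x => by simp only [ext_update_ne]; exact f.map_update_add _ _ _ _)
    (fun c y x => by simp only [ext_update_ne]; exact f.map_update_smul _ _ _ _)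
    (fun y x x' => by
      rw [← slice_apply, ← slice_apply, ← slice_apply, map_add])
    (fun c y x => by
      rw [← slice_apply, ← slice_apply, map_smul])

theorem slice2_apply (f : MultilinearMap k (fun _ : ι => V) W) (i0 : ι) (v : {i // i ≠ i0} → V)
    (i1 : {i // i ≠ i0}) (y x : V) :
    slice2 f i0 v i1 y x = f (ext i0 x (Function.update v i1 y)) := rfl

end

theorem finrank_eq_one {k G ι V W : Type} [Field k] [CharP k 2] [DecidableEq ι]
    [Group G] [AddCommGroup V] [Module k V] [FiniteDimensional k V]
    [AddCommGroup W] [Module k W] (ρ : Representation k G V) (σ : Representation k G W)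
    (f : MultilinearMap k (fun _ : ι => V) W)
    (hequiv : ∀ (g : G) (v : ι → V), f (fun i => ρ g (v i)) = σ g (f v))
    (hodd : Odd (Module.finrank k V)) (hind : Indec ρ) (i0 : ι) (i1 : {i // i ≠ i0})
    (v : {i // i ≠ i0} → V) (hv : ∀ g i, ρ g (v i) = v i)
    (hb : Function.Bijective (slice f i0 v)) : Module.finrank k V = 1 := by
  classical
  let β : V ≃ₗ[k] W := LinearEquiv.ofBijective (slice f i0 v) hb
  have hβ : ∀ x, β x = f (ext i0 x v) := fun x => slice_apply f i0 v x
  let B := slice2 f i0 v i1
  let ξ : V →ₗ[k] k :=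
    { toFun := fun y => LinearMap.trace k V (β.symm.toLinearMap ∘ₗ B y)
      map_add' := fun y y' => by
        rw [map_add, LinearMap.comp_add, map_add]
      map_smul' := fun c y => by
        rw [map_smul, LinearMap.comp_smul, map_smul]; rfl }
  have hξ : ∀ y, ξ y = LinearMap.trace k V (β.symm.toLinearMap ∘ₗ B y) := fun y => rfl
  have hcast : ((Module.finrank k V : ℕ) : k) = 1 := by
    obtain ⟨n, hn⟩ := hodd
    rw [hn]
    push_cast
    rw [CharTwo.two_eq_zero, zero_mul, zero_add]
  have h1 : ξ (v i1) = 1 := by
    have e1 : β.symm.toLinearMap ∘ₗ B (v i1) = LinearMap.id := by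
      ext x
      rw [LinearMap.comp_apply, LinearMap.id_apply]
      have e2 : B (v i1) x = β x := by
        rw [hβ]
        simp only [B]
        rw [slice2_apply, Function.update_eq_self]
      rw [e2]
      exact β.symm_apply_apply x
    rw [hξ, e1, LinearMap.trace_id, hcast]
  have hρi : ∀ g x, ρ g (ρ g⁻¹ x) = x := by
    intro g x
    rw [← Module.End.mul_apply, ← map_mul, mul_inv_cancel, map_one, Module.End.one_apply]
  have hBg : ∀ g y x, B (ρ g y) x = σ g (B y (ρ g⁻¹ x)) := by
    intro g y x
    simp only [B]
    rw [slice2_apply, slice2_apply, ← hequiv, ext_comp, hρi]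
    congr 2
    funext i
    by_cases hi : i = i1
    · subst hi
      rw [Function.update_self, Function.update_self]
    · rw [Function.update_of_ne hi, Function.update_of_ne hi, hv]
  have hβg : ∀ g x, β x = σ g (β (ρ g⁻¹ x)) := by
    intro g x
    rw [hβ, hβ, ← hequiv, ext_comp, hρi]
    congr 2
    funext i
    rw [hv]
  have hβs : ∀ g w, β.symm (σ g w) = ρ g (β.symm w) := by
    intro g w
    apply β.injective
    rw [β.apply_symm_apply, hβg g (ρ g (β.symm w))]
    have : ρ g⁻¹ (ρ g (β.symm w)) = β.symm w := by
      rw [← Module.End.mul_apply, ← map_mul, inv_mul_cancel, map_one, Module.End.one_apply]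
    rw [this, β.apply_symm_apply]
  have hξg : ∀ g y, ξ (ρ g y) = ξ y := by
    intro g y
    rw [hξ, hξ]
    have e1 : β.symm.toLinearMap ∘ₗ B (ρ g y) =
        (ρ g : Module.End k V) * ((β.symm.toLinearMap ∘ₗ B y : Module.End k V) * ρ g⁻¹) := by
      ext x
      simp only [LinearMap.comp_apply, Module.End.mul_apply]
      rw [hBg]
      exact hβs g _
    rw [e1, LinearMap.trace_mul_comm, mul_assoc, ← map_mul, inv_mul_cancel, map_one, mul_one]
  have hcompl : IsCompl (Submodule.span k {v i1}) (LinearMap.ker ξ) := by
    constructor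
    · rw [Submodule.disjoint_def]
      intro x hx hx'
      obtain ⟨c, rfl⟩ := Submodule.mem_span_singleton.mp hx
      rw [LinearMap.mem_ker, map_smul, h1, smul_eq_mul, mul_one] at hx'
      rw [hx', zero_smul]
    · rw [codisjoint_iff, eq_top_iff]
      intro x _
      have : x = ξ x • v i1 + (x - ξ x • v i1) := by abel
      rw [this]
      refine Submodule.add_mem_sup (Submodule.smul_mem _ _ (Submodule.mem_span_singleton_self _)) ?_
      rw [LinearMap.mem_ker, map_sub, map_smul, h1, smul_eq_mul, mul_one, sub_self]
  rcases hind _ _ (fun g x hx => by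
      obtain ⟨c, rfl⟩ := Submodule.mem_span_singleton.mp hx
      rw [map_smul, hv]
      exact Submodule.smul_mem _ _ (Submodule.mem_span_singleton_self _))
      (fun g x hx => by
        rw [LinearMap.mem_ker] at hx ⊢
        rw [hξg, hx]) hcompl with h | h
  · have h2 : v i1 = 0 := by
      have h3 : v i1 ∈ Submodule.span k {v i1} := Submodule.mem_span_singleton_self _
      rw [h] at h3
      exact (Submodule.mem_bot k).mp h3
    rw [h2, map_zero] at h1
    exact absurd h1 zero_ne_one
  · have h2 := LinearMap.finrank_le_finrank_of_injective (LinearMap.ker_eq_bot.mp h)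
    rw [Module.finrank_self] at h2
    have h3 := hodd.pos
    omega

end Pool.Agent.Helper38.Gamma
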