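import Mathlib
import Pool.Agent.Helper38.Gamma.Split

/-! Maps to and from a tensor power that are invariant under permutations. -/

set_option autoImplicit false

namespace Pool.Agent.Helper38.Gamma

open Finset Module TensorProduct PiTensorProduct

section Coord

variable {k ι V J : Type} [Field k] [Fintype ι] [DecidableEq ι] [AddCommGroup V] [Module k V]
  [Fintype J] [DecidableEq J] (b : Basis J k V)

omit [DecidableEq J] [DecidableEq ι] [Fintype J] in
theorem repr_reindex (e : ι ≃ ι) (X : ⨂[k] _ : ι, V) (h : ι → J) :
    (Basis.piTensorProduct (fun _ : ι => b)).repr (reindex k (fun _ => V) e X) h =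
      (Basis.piTensorProduct (fun _ : ι => b)).repr X (fun i => h (e i)) := by
  induction X using PiTensorProduct.induction_on with
  | smul_tprod c x =>
    rw [map_smul, map_smul, map_smul, Finsupp.smul_apply, Finsupp.smul_apply, reindex_tprod,
      Basis.piTensorProduct_repr_tprod_apply, Basis.piTensorProduct_repr_tprod_apply]
    congr 1
    rw [← Equiv.prod_comp e]
    refine Finset.prod_congr rfl fun i _ => ?_
    rw [Equiv.symm_apply_apply]
  | add x y hx hy =>
    rw [map_add, map_add, map_add, Finsupp.add_apply, Finsupp.add_apply, hx, hy]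

omit [DecidableEq J] in
theorem repr_map (T : V →ₗ[k] V) (X : ⨂[k] _ : ι, V) (h : ι → J) :
    (Basis.piTensorProduct (fun _ : ι => b)).repr (PiTensorProduct.map (fun _ => T) X) h =
      ∑ h' : ι → J, (Basis.piTensorProduct (fun _ : ι => b)).repr X h' *
        ∏ i, b.repr (T (b (h' i))) (h i) := by
  induction X using PiTensorProduct.induction_on with
  | smul_tprod c x =>
    simp only [map_smul, Finsupp.smul_apply, PiTensorProduct.map_tprod,
      Basis.piTensorProduct_repr_tprod_apply, smul_eq_mul]
    simp only [mul_assoc]
    rw [← Finset.mul_sum]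
    congr 1
    have h1 : ∀ i, b.repr (T (x i)) (h i) = ∑ c' : J, b.repr (x i) c' * b.repr (T (b c')) (h i) := by
      intro i
      conv_lhs => rw [← b.sum_repr (x i)]
      rw [map_sum, map_sum, Finsupp.finsetSum_apply]
      refine Finset.sum_congr rfl fun c' _ => ?_
      rw [map_smul, map_smul, Finsupp.smul_apply, smul_eq_mul]
    have e2 := Finset.prod_univ_sum (fun _ : ι => (Finset.univ : Finset J))
        (fun i c' => b.repr (x i) c' * b.repr (T (b c')) (h i))
    rw [Fintype.piFinset_univ] at e2
    rw [Finset.prod_congr rfl (fun i _ => h1 i), e2]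
    refine Finset.sum_congr rfl fun h' _ => ?_
    rw [Finset.prod_mul_distrib]
  | add x y hx hy =>
    simp only [map_add, Finsupp.add_apply, hx, hy, add_mul, Finset.sum_add_distrib]

variable {P W : Type} [Group P] [MulAction P ι] [MulAction.IsPretransitive P ι] [Nonempty ι]
  [AddCommGroup W] [Module k W]

omit [DecidableEq J] in
/-- Only the diagonal coefficients of an invariant tensor matter for an invariant functional. -/
theorem apply_invariant (hP : IsPGroup 2 P) (h2 : ∀ m : W, m + m = 0) (r : (⨂[k] _ : ι, V) →ₗ[k] W)
    (hr : ∀ (p : P) x, r (reindex k (fun _ => V) (MulAction.toPerm p) x) = r x)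
    (X : ⨂[k] _ : ι, V) (hX : ∀ p : P, reindex k (fun _ => V) (MulAction.toPerm p) X = X) :
    r X = ∑ j : J, (Basis.piTensorProduct (fun _ : ι => b)).repr X (fun _ => j) •
      r (tprod k fun _ => b j) := by
  classical
  have h1 : r X = ∑ h : ι → J, (Basis.piTensorProduct (fun _ : ι => b)).repr X h •
      r (tprod k fun i => b (h i)) := by
    conv_lhs => rw [← (Basis.piTensorProduct (fun _ : ι => b)).sum_repr X]
    rw [map_sum]
    refine Finset.sum_congr rfl fun h _ => ?_
    rw [map_smul, Basis.piTensorProduct_apply]
  rw [h1]
  refine sum_fun_eq_sum_const hP h2 (fun h : ι → J =>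
    (Basis.piTensorProduct (fun _ : ι => b)).repr X h • r (tprod k fun i => b (h i))) ?_
  intro p h
  have e1 : (Basis.piTensorProduct (fun _ : ι => b)).repr X (fun i => h (p • i)) =
      (Basis.piTensorProduct (fun _ : ι => b)).repr X h := by
    have := repr_reindex b (MulAction.toPerm p) X h
    rw [hX p] at this
    exact this.symm
  have e2 : r (tprod k fun i => b (h (p • i))) = r (tprod k fun i => b (h i)) := by
    rw [← hr p (tprod k fun i => b (h (p • i))), reindex_tprod]
    congr 2
    funext i
    congr 2
    exact smul_inv_smul p i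
  rw [e1, e2]

end Coord

end Pool.Agent.Helper38.Gamma
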