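import Mathlib
import Pool.Agent.Helper38.Gamma.Semi

/-! The main argument. -/

set_option autoImplicit false

namespace Pool.Agent.Helper38.Gamma

open Finset Module TensorProduct PiTensorProduct

/-- The number of elements of a set with a transitive action of a `2`-group. -/
theorem card_eq_two_pow {P ι : Type} [Group P] [MulAction P ι] [MulAction.IsPretransitive P ι]
    [Fintype ι] [Nonempty ι] (hP : IsPGroup 2 P) : ∃ a : ℕ, Fintype.card ι = 2 ^ a := by
  have : Fact (Nat.Prime 2) := ⟨Nat.prime_two⟩
  obtain ⟨a, ha⟩ := hP.card_orbit (Classical.arbitrary ι)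
  refine ⟨a, ?_⟩
  rw [← ha, MulAction.orbit_eq_univ, Nat.card_univ, Nat.card_eq_fintype_card]

theorem fitting {k V : Type} [Field k] [AddCommGroup V] [Module k V] [FiniteDimensional k V]
    {G : Type} [Group G] (ρ : Representation k G V) (hind : Indec ρ) (E : Module.End k V)
    (hE : ∀ g x, E (ρ g x) = ρ g (E x)) : IsNilpotent E ∨ Function.Injective E := by
  obtain ⟨n, hn⟩ := Filter.eventually_atTop.mp (LinearMap.eventually_isCompl_ker_pow_range_pow E)
  have h1 := hn (n + 1) (Nat.le_succ n)
  have hEn : ∀ (m : ℕ) g x, (E ^ m) (ρ g x) = ρ g ((E ^ m) x) := by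
    intro m g x
    induction m with
    | zero => rfl
    | succ m ih => rw [pow_succ', Module.End.mul_apply, ih, hE, Module.End.mul_apply]
  rcases hind _ _ (fun g x hx => by
      rw [LinearMap.mem_ker] at hx ⊢
      rw [hEn, hx, map_zero])
    (fun g x hx => by
      obtain ⟨y, rfl⟩ := hx
      exact ⟨ρ g y, hEn _ _ _⟩) h1 with h | h
  · right
    have h2 : Function.Injective (E ^ (n + 1)) := LinearMap.ker_eq_bot.mp h
    intro x y hxy
    apply h2
    rw [pow_succ, Module.End.mul_apply, Module.End.mul_apply, hxy]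
  · left
    exact ⟨n + 1, LinearMap.range_eq_bot.mp h⟩

theorem key {k P ι G V W : Type} [Field k] [Infinite k] [CharP k 2] [PerfectRing k 2] [Group P]
    [MulAction P ι] [MulAction.IsPretransitive P ι] [Fintype ι] [DecidableEq ι] [Nontrivial ι]
    (hP : IsPGroup 2 P)
    [Group G] [Finite G] (hG : IsPGroup 2 G) [AddCommGroup V] [Module k V] [FiniteDimensional k V]
    [AddCommGroup W] [Module k W] (ρ : Representation k G V) (σ : Representation k G W)
    (hodd : Odd (Module.finrank k V)) (hind : Indec ρ)
    (j : W →ₗ[k] ⨂[k] _ : ι, V) (r : (⨂[k] _ : ι, V) →ₗ[k] W)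
    (hjG : ∀ g w, j (σ g w) = PiTensorProduct.map (fun _ => ρ g) (j w))
    (hrG : ∀ g x, r (PiTensorProduct.map (fun _ => ρ g) x) = σ g (r x))
    (hjP : ∀ (p : P) w, reindex k (fun _ => V) (MulAction.toPerm p) (j w) = j w)
    (hrP : ∀ (p : P) x, r (reindex k (fun _ => V) (MulAction.toPerm p) x) = r x)
    (hnn : ¬ IsNilpotent (r ∘ₗ j : Module.End k W))
    (hW : Module.finrank k W = Module.finrank k V ∨ Function.Surjective (r ∘ₗ j)) :
    Module.finrank k V = 1 := by
  classical
  have : Nonempty ι := inferInstance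
  have h2k : ∀ m : k, m + m = 0 := fun m => CharTwo.add_self_eq_zero m
  have h2W : ∀ m : W, m + m = 0 := by
    intro m
    rw [← two_smul k m, CharTwo.two_eq_zero, zero_smul]
  have h2V : ∀ m : V, m + m = 0 := by
    intro m
    rw [← two_smul k m, CharTwo.two_eq_zero, zero_smul]
  obtain ⟨a, ha⟩ := card_eq_two_pow (ι := ι) hP
  let root : k ≃+* k := (iterateFrobeniusEquiv k 2 a).symm
  have hroot : ∀ x, root x ^ Fintype.card ι = x := by
    intro x
    rw [ha, ← iterateFrobeniusEquiv_def k 2 a (root x)]
    exact (iterateFrobeniusEquiv k 2 a).apply_symm_apply x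
  have hroot' : ∀ x, root (x ^ Fintype.card ι) = x := by
    intro x
    rw [ha, ← iterateFrobeniusEquiv_def k 2 a x]
    exact (iterateFrobeniusEquiv k 2 a).symm_apply_apply x
  let b := Module.finBasis k V
  let J : Type := Fin (Module.finrank k V)
  let bb := Basis.piTensorProduct (fun _ : ι => b)
  -- the multilinear map
  let f : MultilinearMap k (fun _ : ι => V) W := r.compMultilinearMap (tprod k)
  have hf : ∀ v, f v = r (tprod k v) := fun v => rfl
  have hinv : ∀ (p : P) (v : ι → V), f (fun i => v (p • i)) = f v := by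
    intro p v
    rw [hf, hf, ← hrP p (tprod k fun i => v (p • i)), reindex_tprod]
    congr 2
    funext i
    congr 1
    exact smul_inv_smul p i
  have hequiv : ∀ (g : G) (v : ι → V), f (fun i => ρ g (v i)) = σ g (f v) := by
    intro g v
    rw [hf, hf, ← hrG, PiTensorProduct.map_tprod]
  let φ : V → W := fun x => f (fun _ => x)
  have hφadd : ∀ x y, φ (x + y) = φ x + φ y := diag_add hP h2W f hinv
  have hφsmul : ∀ (c : k) x, φ (c • x) = c ^ Fintype.card ι • φ x := diag_smul f
  have hφsum : ∀ (x : J → V), φ (∑ i, x i) = ∑ i, φ (x i) := fun x => diag_sum hP h2W f hinv x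
  have hφ0 : φ 0 = 0 := by
    have h := hφadd 0 0
    rw [add_zero] at h
    exact left_eq_add.mp h
  let Ψ : W → V := fun w => ∑ i : J, root (bb.repr (j w) (fun _ => i)) • b i
  have hφΨ : ∀ w, φ (Ψ w) = r (j w) := by
    intro w
    rw [apply_invariant b hP h2W r hrP (j w) (fun p => hjP p w)]
    simp only [Ψ]
    rw [hφsum]
    refine Finset.sum_congr rfl fun i _ => ?_
    rw [hφsmul, hroot]
    rfl
  have hΨadd : ∀ w w', Ψ (w + w') = Ψ w + Ψ w' := by
    intro w w'
    simp only [Ψ]
    rw [← Finset.sum_add_distrib]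
    refine Finset.sum_congr rfl fun i _ => ?_
    rw [map_add, map_add, Finsupp.add_apply, map_add, add_smul]
  have hΨsmul : ∀ (c : k) w, Ψ (c ^ Fintype.card ι • w) = c • Ψ w := by
    intro c w
    simp only [Ψ]
    rw [Finset.smul_sum]
    refine Finset.sum_congr rfl fun i _ => ?_
    rw [map_smul, map_smul, Finsupp.smul_apply, smul_eq_mul, map_mul, hroot', mul_smul]
  have hΨ0 : Ψ 0 = 0 := by
    have h := hΨadd 0 0
    rw [add_zero] at h
    exact left_eq_add.mp h
  have hΨG : ∀ g w, Ψ (σ g w) = ρ g (Ψ w) := by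
    intro g w
    apply b.repr.injective
    ext i
    simp only [Ψ]
    rw [map_sum, Finsupp.finsetSum_apply, map_sum, map_sum, Finsupp.finsetSum_apply]
    have e1 : ∀ c : J, b.repr (root (bb.repr (j (σ g w)) fun _ => c) • b c) i =
        if c = i then root (bb.repr (j (σ g w)) fun _ => i) else 0 := by
      intro c
      rw [map_smul, Finsupp.smul_apply, b.repr_self, Finsupp.single_apply, smul_eq_mul]
      split_ifs with h
      · rw [h, mul_one]
      · rw [mul_zero]
    rw [Finset.sum_congr rfl (fun c _ => e1 c), Finset.sum_ite_eq' Finset.univ i,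
      if_pos (Finset.mem_univ i), hjG, repr_map b]
    have e2 := sum_fun_eq_sum_const (ι := ι) (X := J) hP h2k (fun h' : ι → J =>
      (Basis.piTensorProduct (fun _ : ι => b)).repr (j w) h' *
        ∏ i', b.repr (ρ g (b (h' i'))) i) (fun p h' => by
        have e3 := repr_reindex b (MulAction.toPerm p) (j w) h'
        rw [hjP p w] at e3
        have e4 : (∏ i', b.repr (ρ g (b (h' (p • i')))) i) = ∏ i', b.repr (ρ g (b (h' i'))) i :=
          Equiv.prod_comp (MulAction.toPerm p) (fun i' => b.repr (ρ g (b (h' i'))) i)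
        rw [e4]
        congr 1
        exact e3.symm)
    rw [e2, map_sum]
    refine Finset.sum_congr rfl fun c _ => ?_
    rw [Finset.prod_const, Finset.card_univ, map_mul, hroot', map_smul, map_smul,
      Finsupp.smul_apply, smul_eq_mul]
  -- the endomorphism of `V`
  let E : Module.End k V :=
    { toFun := fun x => Ψ (φ x)
      map_add' := fun x y => by rw [hφadd, hΨadd]
      map_smul' := fun c x => by rw [hφsmul, hΨsmul]; rfl }
  have hE : ∀ x, E x = Ψ (φ x) := fun x => rfl
  have hEG : ∀ g x, E (ρ g x) = ρ g (E x) := by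
    intro g x
    rw [hE, hE, ← hΨG]
    congr 1
    exact hequiv g (fun _ => x)
  have hpow : ∀ (m : ℕ) w, ((r ∘ₗ j : Module.End k W) ^ (m + 1)) w = φ ((E ^ m) (Ψ w)) := by
    intro m
    induction m with
    | zero =>
      intro w
      rw [zero_add, pow_one, pow_zero, Module.End.one_apply, hφΨ]
      rfl
    | succ m ih =>
      intro w
      rw [pow_succ', Module.End.mul_apply, ih]
      have e1 : (r ∘ₗ j : Module.End k W) (φ ((E ^ m) (Ψ w))) = φ (Ψ (φ ((E ^ m) (Ψ w)))) :=
        (hφΨ _).symm
      rw [e1, pow_succ', Module.End.mul_apply, hE]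
  have hEinj : Function.Injective E := by
    rcases fitting ρ hind E hEG with ⟨m, hm⟩ | h
    · exfalso
      apply hnn
      refine ⟨m + 1, LinearMap.ext fun w => ?_⟩
      rw [hpow, hm, LinearMap.zero_apply, LinearMap.zero_apply, hφ0]
    · exact h
  have hφinj : ∀ x, φ x = 0 → x = 0 := by
    intro x hx
    apply hEinj
    rw [hE, hx, hΨ0, map_zero]
  have hli : LinearIndependent k (fun i : J => φ (b i)) := by
    rw [Fintype.linearIndependent_iff]
    intro c hc i
    have h1 : φ (∑ i, root (c i) • b i) = 0 := by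
      rw [hφsum, ← hc]
      refine Finset.sum_congr rfl fun i _ => ?_
      rw [hφsmul, hroot]
    have h2 := hφinj _ h1
    have h3 := (Fintype.linearIndependent_iff.mp b.linearIndependent) (fun i => root (c i)) h2 i
    exact (map_eq_zero root).mp h3
  have hspan : ⊤ ≤ Submodule.span k (Set.range fun i : J => φ (b i)) := by
    rcases hW with hW | hW
    · have : Module.Finite k W := Module.finite_of_finrank_pos (by rw [hW]; exact hodd.pos)
      rw [hli.span_eq_top_of_card_eq_finrank' (by rw [hW]; exact Fintype.card_fin _)]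
    · intro w _
      obtain ⟨w', hw'⟩ := hW w
      have h1 : w = ∑ i : J, bb.repr (j w') (fun _ => i) • φ (b i) := by
        rw [← hw']
        exact apply_invariant b hP h2W r hrP (j w') (fun p => hjP p w')
      rw [h1]
      exact Submodule.sum_mem _ fun i _ => Submodule.smul_mem _ _ (Submodule.subset_span ⟨i, rfl⟩)
  let c : Basis J k W := Basis.mk hli hspan
  have hbc : ∀ i, f (fun _ => b i) = c i := by
    intro i
    rw [Basis.mk_apply]
  obtain ⟨i0, i1, hne⟩ := exists_pair_ne ι
  obtain ⟨v, hv, hbij⟩ := exists_fixed hP hG ρ σ f hinv hequiv b c hbc i0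
  exact finrank_eq_one ρ σ f hequiv hodd hind i0 ⟨i1, hne.symm⟩ v hv hbij

end Pool.Agent.Helper38.Gamma
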