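import Mathlib
import Pool.Agent.Helper38.Gamma.Key

/-! Two consequences of the main argument. -/

set_option autoImplicit false

namespace Pool.Agent.Helper38.Gamma

open Finset Module TensorProduct PiTensorProduct

section

variable {k P ι G V : Type} [Field k] [IsAlgClosed k] [CharP k 2] [Group P]
    [MulAction P ι] [MulAction.IsPretransitive P ι] [Fintype ι] [DecidableEq ι] [Nontrivial ι]
    [Group G] [Finite G] [AddCommGroup V] [Module k V] [FiniteDimensional k V]

theorem thmA (hP : IsPGroup 2 P) (hG : IsPGroup 2 G) (ρ : Representation k G V)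
    (hodd : Odd (Module.finrank k V)) (hind : Indec ρ) (hV : Module.finrank k V ≠ 1)
    {W : Type} [AddCommGroup W] [Module k W] (σ : Representation k G W)
    (j : W →ₗ[k] ⨂[k] _ : ι, V) (r : (⨂[k] _ : ι, V) →ₗ[k] W)
    (hjG : ∀ g w, j (σ g w) = PiTensorProduct.map (fun _ => ρ g) (j w))
    (hrG : ∀ g x, r (PiTensorProduct.map (fun _ => ρ g) x) = σ g (r x))
    (hjP : ∀ (p : P) w, reindex k (fun _ => V) (MulAction.toPerm p) (j w) = j w)
    (hrP : ∀ (p : P) x, r (reindex k (fun _ => V) (MulAction.toPerm p) x) = r x)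
    (hrj : ∀ w, r (j w) = w) : Subsingleton W := by
  by_contra hW
  have : Nontrivial W := not_subsingleton_iff_nontrivial.mp hW
  have : Infinite k := IsAlgClosed.instInfinite
  have hid : (r ∘ₗ j : Module.End k W) = 1 := LinearMap.ext hrj
  refine hV (key hP hG ρ σ hodd hind j r hjG hrG hjP hrP ?_ (Or.inr ?_))
  · rw [hid]
    exact not_isNilpotent_one
  · intro w
    exact ⟨w, hrj w⟩

omit [IsAlgClosed k] [CharP k 2] [MulAction P ι] [MulAction.IsPretransitive P ι] [Fintype ι]
  [DecidableEq ι] [Nontrivial ι] [Group G] [Finite G] [Group P] in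
/-- The trace of the endomorphism of the dual attached to a tensor and a functional. -/
theorem trace_contract {M : Type} [AddCommGroup M] [Module k M] (T : M ⊗[k] V →ₗ[k] k)
    (w : M ⊗[k] V) (j : Dual k V →ₗ[k] M)
    (hj : ∀ ξ, j ξ = TensorProduct.rid k M (LinearMap.lTensor M ξ w)) :
    LinearMap.trace k (Dual k V) (TensorProduct.curry T ∘ₗ j) = T w := by
  induction w using TensorProduct.induction_on generalizing j with
  | zero =>
    have h0 : j = 0 := LinearMap.ext fun ξ => by rw [hj]; simp
    rw [h0, LinearMap.comp_zero, map_zero, map_zero]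
  | tmul m v =>
    have h0 : TensorProduct.curry T ∘ₗ j =
        LinearMap.smulRight (Dual.eval k V v) (TensorProduct.curry T m) := by
      refine LinearMap.ext fun ξ => ?_
      rw [LinearMap.comp_apply, hj]
      simp
    rw [h0, LinearMap.trace_smulRight]
    simp
  | add x y hx hy =>
    let jj : (M ⊗[k] V) → Dual k V →ₗ[k] M := fun x =>
      { toFun := fun ξ => TensorProduct.rid k M (LinearMap.lTensor M ξ x)
        map_add' := fun ξ η => by
          rw [LinearMap.lTensor_add, LinearMap.add_apply, map_add]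
        map_smul' := fun c ξ => by
          rw [LinearMap.lTensor_smul, LinearMap.smul_apply, map_smul]; rfl }
    have h0 : j = jj x + jj y := LinearMap.ext fun ξ => by
      rw [hj, LinearMap.add_apply, map_add, map_add]
      rfl
    rw [h0, LinearMap.comp_add, map_add, hx (jj x) (fun _ => rfl), hy (jj y) (fun _ => rfl),
      map_add]

theorem thmB (hP : IsPGroup 2 P) (hG : IsPGroup 2 G) (ρ : Representation k G V)
    (hodd : Odd (Module.finrank k V)) (hind : Indec ρ) (hV : Module.finrank k V ≠ 1)
    (w : (⨂[k] _ : ι, V) ⊗[k] V) (T : (⨂[k] _ : ι, V) ⊗[k] V →ₗ[k] k)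
    (hwG : ∀ g, TensorProduct.map (PiTensorProduct.map (fun _ => ρ g)) (ρ g) w = w)
    (hTG : ∀ g x, T (TensorProduct.map (PiTensorProduct.map (fun _ => ρ g)) (ρ g) x) = T x)
    (hwP : ∀ p : P, TensorProduct.map
      (reindex k (fun _ => V) (MulAction.toPerm p)).toLinearMap LinearMap.id w = w)
    (hTP : ∀ (p : P) x, T (TensorProduct.map
      (reindex k (fun _ => V) (MulAction.toPerm p)).toLinearMap LinearMap.id x) = T x) :
    T w = 0 := by
  have : Infinite k := IsAlgClosed.instInfinite
  by_contra hTw
  let j : Dual k V →ₗ[k] (⨂[k] _ : ι, V) :=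
    { toFun := fun ξ => TensorProduct.rid k _ (LinearMap.lTensor _ ξ w)
      map_add' := fun ξ η => by
        rw [LinearMap.lTensor_add, LinearMap.add_apply, map_add]
      map_smul' := fun c ξ => by
        rw [LinearMap.lTensor_smul, LinearMap.smul_apply, map_smul]; rfl }
  have hj : ∀ ξ, j ξ = TensorProduct.rid k _ (LinearMap.lTensor _ ξ w) := fun ξ => rfl
  have htr := trace_contract T w j hj
  have nat : ∀ (A : (⨂[k] _ : ι, V) →ₗ[k] (⨂[k] _ : ι, V)) (B : V →ₗ[k] V) (ξ : Dual k V)
      (x : (⨂[k] _ : ι, V) ⊗[k] V),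
      TensorProduct.rid k _ (LinearMap.lTensor _ ξ (TensorProduct.map A B x)) =
        A (TensorProduct.rid k _ (LinearMap.lTensor _ (ξ ∘ₗ B) x)) := by
    intro A B ξ x
    induction x using TensorProduct.induction_on with
    | zero => simp
    | tmul m v => simp
    | add x y hx hy => simp only [map_add, hx, hy]
  refine hV (key hP hG ρ ρ.dual hodd hind j (TensorProduct.curry T) ?_ ?_ ?_ ?_ ?_ (Or.inl ?_))
  · intro g ξ
    rw [hj, hj]
    conv_rhs => rw [← hwG g⁻¹]
    rw [nat]
    rw [← LinearMap.comp_apply (PiTensorProduct.map fun _ => ρ g), ← PiTensorProduct.map_comp]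
    have e : (fun _ : ι => ρ g ∘ₗ ρ g⁻¹) = fun _ => LinearMap.id := by
      funext _
      rw [← Module.End.mul_eq_comp, ← map_mul, mul_inv_cancel, map_one]
      rfl
    rw [e, PiTensorProduct.map_id, LinearMap.id_apply]
    rfl
  · intro g x
    refine LinearMap.ext fun v => ?_
    rw [Representation.dual_apply, Dual.transpose_apply, LinearMap.comp_apply,
      TensorProduct.curry_apply, TensorProduct.curry_apply, ← hTG g (x ⊗ₜ (ρ g⁻¹) v),
      TensorProduct.map_tmul]
    congr 2
    rw [← Module.End.mul_apply, ← map_mul, mul_inv_cancel, map_one]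
    rfl
  · intro p ξ
    rw [hj]
    conv_rhs => rw [← hwP p]
    rw [nat]
    rfl
  · intro p x
    refine LinearMap.ext fun v => ?_
    rw [TensorProduct.curry_apply, TensorProduct.curry_apply, ← hTP p (x ⊗ₜ v),
      TensorProduct.map_tmul]
    rfl
  · intro hn
    apply hTw
    rw [← htr]
    exact (LinearMap.isNilpotent_trace_of_isNilpotent hn).eq_zero
  · exact Subspace.dual_finrank_eq

end

end Pool.Agent.Helper38.Gamma
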