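import Mathlib
import Pool.Agent.Helper38.Gamma.AB

/-! The threefold tensor power. -/

set_option autoImplicit false

namespace Pool.Agent.Helper38.Gamma

open Finset Module TensorProduct PiTensorProduct

section Two

variable {k V : Type} [Field k] [AddCommGroup V] [Module k V]

/-- From `V ⊗ V` to the tensor power indexed by two elements. -/
noncomputable def toPi : V ⊗[k] V →ₗ[k] ⨂[k] _ : Fin 2, V :=
  TensorProduct.lift (LinearMap.mk₂ k (fun x y => tprod k ![x, y])
    (fun x x' y => by
      have h := (tprod k (s := fun _ : Fin 2 => V)).map_update_add ![x, y] 0 x x'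
      have e : ∀ z : V, Function.update ![x, y] 0 z = ![z, y] := fun z => by
        funext i; fin_cases i <;> simp
      rw [e, e, e] at h
      exact h)
    (fun c x y => by
      have h := (tprod k (s := fun _ : Fin 2 => V)).map_update_smul ![x, y] 0 c x
      have e : ∀ z : V, Function.update ![x, y] 0 z = ![z, y] := fun z => by
        funext i; fin_cases i <;> simp
      rw [e, e] at h
      exact h)
    (fun x y y' => by
      have h := (tprod k (s := fun _ : Fin 2 => V)).map_update_add ![x, y] 1 y y'
      have e : ∀ z : V, Function.update ![x, y] 1 z = ![x, z] := fun z => by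
        funext i; fin_cases i <;> simp
      rw [e, e, e] at h
      exact h)
    (fun c x y => by
      have h := (tprod k (s := fun _ : Fin 2 => V)).map_update_smul ![x, y] 1 c y
      have e : ∀ z : V, Function.update ![x, y] 1 z = ![x, z] := fun z => by
        funext i; fin_cases i <;> simp
      rw [e, e] at h
      exact h))

@[simp] theorem toPi_tmul (x y : V) : toPi (x ⊗ₜ[k] y) = tprod k ![x, y] := rfl

/-- From the tensor power indexed by two elements to `V ⊗ V`. -/
noncomputable def ofPi : (⨂[k] _ : Fin 2, V) →ₗ[k] V ⊗[k] V :=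
  PiTensorProduct.lift
    { toFun := fun v => v 0 ⊗ₜ[k] v 1
      map_update_add' := by
        intro _ v i x y
        fin_cases i
        · simp [TensorProduct.add_tmul]
        · simp [TensorProduct.tmul_add]
      map_update_smul' := by
        intro _ v i c x
        fin_cases i
        · simp [TensorProduct.smul_tmul']
        · simp }

@[simp] theorem ofPi_tprod (v : Fin 2 → V) : ofPi (tprod k v) = v 0 ⊗ₜ[k] v 1 := by
  rw [ofPi, PiTensorProduct.lift.tprod]; rfl

theorem ofPi_toPi (x : V ⊗[k] V) : ofPi (toPi x) = x := by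
  induction x using TensorProduct.induction_on with
  | zero => simp
  | tmul m v => simp
  | add x y hx hy => simp only [map_add, hx, hy]

theorem toPi_map (A : V →ₗ[k] V) (x : V ⊗[k] V) :
    toPi (TensorProduct.map A A x) = PiTensorProduct.map (fun _ => A) (toPi x) := by
  induction x using TensorProduct.induction_on with
  | zero => simp
  | tmul m v =>
    rw [TensorProduct.map_tmul, toPi_tmul, toPi_tmul, PiTensorProduct.map_tprod]
    congr 1
    funext i
    fin_cases i <;> rfl
  | add x y hx hy => simp only [map_add, hx, hy]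

theorem ofPi_map (A : V →ₗ[k] V) (x : ⨂[k] _ : Fin 2, V) :
    ofPi (PiTensorProduct.map (fun _ => A) x) = TensorProduct.map A A (ofPi x) := by
  induction x using PiTensorProduct.induction_on with
  | smul_tprod c v =>
    rw [map_smul, map_smul, map_smul, map_smul, PiTensorProduct.map_tprod, ofPi_tprod, ofPi_tprod,
      TensorProduct.map_tmul]
  | add x y hx hy => simp only [map_add, hx, hy]

theorem toPi_swap (x : V ⊗[k] V) :
    reindex k (fun _ => V) (Equiv.swap (0 : Fin 2) 1) (toPi x) =
      toPi (TensorProduct.comm k V V x) := by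
  induction x using TensorProduct.induction_on with
  | zero => simp
  | tmul m v =>
    rw [TensorProduct.comm_tmul, toPi_tmul, toPi_tmul, reindex_tprod]
    congr 1
    funext i
    fin_cases i <;> rfl
  | add x y hx hy => simp only [map_add, hx, hy]

theorem ofPi_swap (x : ⨂[k] _ : Fin 2, V) :
    ofPi (reindex k (fun _ => V) (Equiv.swap (0 : Fin 2) 1) x) =
      TensorProduct.comm k V V (ofPi x) := by
  induction x using PiTensorProduct.induction_on with
  | smul_tprod c v =>
    rw [map_smul, map_smul, map_smul, map_smul, reindex_tprod, ofPi_tprod, ofPi_tprod,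
      TensorProduct.comm_tmul]
    rfl
  | add x y hx hy => simp only [map_add, hx, hy]

end Two

section Main

variable {k G V : Type} [Field k] [IsAlgClosed k] [CharP k 2]
    [Group G] [Finite G] [AddCommGroup V] [Module k V] [FiniteDimensional k V]

theorem perm_fin_two (p : Equiv.Perm (Fin 2)) : p = 1 ∨ p = Equiv.swap 0 1 := by
  revert p
  decide

theorem thmB2 (hG : IsPGroup 2 G) (ρ : Representation k G V)
    (hodd : Odd (Module.finrank k V)) (hind : Indec ρ) (hV : Module.finrank k V ≠ 1)
    (w : (V ⊗[k] V) ⊗[k] V) (T : (V ⊗[k] V) ⊗[k] V →ₗ[k] k)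
    (hwG : ∀ g, TensorProduct.map (TensorProduct.map (ρ g) (ρ g)) (ρ g) w = w)
    (hTG : ∀ g x, T (TensorProduct.map (TensorProduct.map (ρ g) (ρ g)) (ρ g) x) = T x)
    (hws : TensorProduct.map (TensorProduct.comm k V V).toLinearMap LinearMap.id w = w)
    (hTs : ∀ x, T (TensorProduct.map (TensorProduct.comm k V V).toLinearMap LinearMap.id x) =
      T x) : T w = 0 := by
  have hcomp : ∀ {A A' B B' C C' : Type} [AddCommGroup A] [Module k A] [AddCommGroup A']
      [Module k A'] [AddCommGroup B] [Module k B] [AddCommGroup B'] [Module k B']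
      [AddCommGroup C] [Module k C] [AddCommGroup C'] [Module k C'] (p : A →ₗ[k] B)
      (q : B →ₗ[k] C) (p' : A' →ₗ[k] B') (q' : B' →ₗ[k] C') (x : A ⊗[k] A'),
      TensorProduct.map q q' (TensorProduct.map p p' x) =
        TensorProduct.map (q ∘ₗ p) (q' ∘ₗ p') x := by
    intro A A' B B' C C' _ _ _ _ _ _ _ _ _ _ _ _ p q p' q' x
    rw [TensorProduct.map_comp]; rfl
  have hPP : IsPGroup 2 (Equiv.Perm (Fin 2)) := by
    refine IsPGroup.of_card (n := 1) ?_
    rw [Nat.card_eq_fintype_card, Fintype.card_perm]
    rfl
  have htr : MulAction.IsPretransitive (Equiv.Perm (Fin 2)) (Fin 2) := by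
    refine ⟨fun x y => ⟨Equiv.swap x y, ?_⟩⟩
    exact Equiv.swap_apply_left x y
  have hp1 : ∀ x : ⨂[k] _ : Fin 2, V,
      reindex k (fun _ => V) (MulAction.toPerm (1 : Equiv.Perm (Fin 2))) x = x := by
    intro x
    have : (MulAction.toPerm (1 : Equiv.Perm (Fin 2)) : Fin 2 ≃ Fin 2) = Equiv.refl _ := by
      ext; rfl
    rw [this, reindex_refl]
    rfl
  have hp2 : (MulAction.toPerm (Equiv.swap 0 1 : Equiv.Perm (Fin 2)) : Fin 2 ≃ Fin 2) =
      Equiv.swap 0 1 := by
    ext; rfl
  have hmain := thmB (ι := Fin 2) hPP hG ρ hodd hind hV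
    (TensorProduct.map toPi LinearMap.id w) (T ∘ₗ TensorProduct.map ofPi LinearMap.id)
    ?_ ?_ ?_ ?_
  · rw [LinearMap.comp_apply, hcomp] at hmain
    have e : (ofPi ∘ₗ toPi : V ⊗[k] V →ₗ[k] V ⊗[k] V) = LinearMap.id :=
      LinearMap.ext ofPi_toPi
    rw [e, LinearMap.id_comp, TensorProduct.map_id] at hmain
    exact hmain
  · intro g
    rw [hcomp]
    conv_rhs => rw [← hwG g]
    rw [hcomp, LinearMap.comp_id, LinearMap.id_comp]
    congr 2
    exact LinearMap.ext fun x => (toPi_map (ρ g) x).symm
  · intro g x
    rw [LinearMap.comp_apply, LinearMap.comp_apply, ← hTG g (TensorProduct.map ofPi _ x), hcomp,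
      hcomp, LinearMap.comp_id, LinearMap.id_comp]
    congr 3
    exact LinearMap.ext fun x => ofPi_map (ρ g) x
  · intro p
    rcases perm_fin_two p with rfl | rfl
    · have e : (reindex k (fun _ => V)
          (MulAction.toPerm (1 : Equiv.Perm (Fin 2)))).toLinearMap = LinearMap.id :=
        LinearMap.ext hp1
      rw [e, TensorProduct.map_id]; rfl
    · rw [hp2, hcomp]
      conv_rhs => rw [← hws]
      rw [hcomp, LinearMap.comp_id]
      congr 2
      exact LinearMap.ext fun x => toPi_swap x
  · intro p x
    rcases perm_fin_two p with rfl | rfl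
    · have e : (reindex k (fun _ => V)
          (MulAction.toPerm (1 : Equiv.Perm (Fin 2)))).toLinearMap = LinearMap.id :=
        LinearMap.ext hp1
      rw [e, TensorProduct.map_id]; rfl
    · rw [hp2, LinearMap.comp_apply, LinearMap.comp_apply,
        ← hTs (TensorProduct.map ofPi _ x), hcomp, hcomp, LinearMap.comp_id]
      congr 3
      exact LinearMap.ext fun x => ofPi_swap x

end Main

end Pool.Agent.Helper38.Gamma
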