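import Mathlib
import Pool.Agent.Helper38.Gamma.Three

/-! Objects of order three. -/

set_option autoImplicit false

namespace Pool.Agent.Helper38.Gamma

open Finset Module TensorProduct

section Alg

variable {k V : Type} [Field k] [AddCommGroup V] [Module k V]

/-- Trilinear functions. -/
structure Tri {M : Type} [AddCommGroup M] [Module k M] (F : V → V → V → M) : Prop where
  add1 : ∀ x x' y z, F (x + x') y z = F x y z + F x' y z
  add2 : ∀ x y y' z, F x (y + y') z = F x y z + F x y' z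
  add3 : ∀ x y z z', F x y (z + z') = F x y z + F x y z'
  smul1 : ∀ (c : k) x y z, F (c • x) y z = c • F x y z
  smul2 : ∀ (c : k) x y z, F x (c • y) z = c • F x y z
  smul3 : ∀ (c : k) x y z, F x y (c • z) = c • F x y z

theorem Tri.exists_lift {M : Type} [AddCommGroup M] [Module k M] {F : V → V → V → M}
    (h : Tri (k := k) F) : ∃ L : (V ⊗[k] V) ⊗[k] V →ₗ[k] M, ∀ x y z,
      L ((x ⊗ₜ y) ⊗ₜ z) = F x y z := by
  refine ⟨TensorProduct.lift (TensorProduct.lift (LinearMap.mk₂ k
    (fun x y => ({ toFun := F x y, map_add' := h.add3 x y, map_smul' := fun c z => h.smul3 c x y z } :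
      V →ₗ[k] M)) ?_ ?_ ?_ ?_)), ?_⟩
  · intro x x' y
    exact LinearMap.ext fun z => h.add1 x x' y z
  · intro c x y
    exact LinearMap.ext fun z => h.smul1 c x y z
  · intro x y y'
    exact LinearMap.ext fun z => h.add2 x y y' z
  · intro c x y
    exact LinearMap.ext fun z => h.smul2 c x y z
  · intro x y z
    rfl

theorem Tri.sum {M : Type} [AddCommGroup M] [Module k M] {A : Type} [Fintype A]
    {F : A → V → V → V → M} (h : ∀ a, Tri (k := k) (F a)) :
    Tri (k := k) (fun x y z => ∑ a, F a x y z) where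
  add1 x x' y z := by
    rw [← Finset.sum_add_distrib]; exact Finset.sum_congr rfl fun a _ => (h a).add1 x x' y z
  add2 x y y' z := by
    rw [← Finset.sum_add_distrib]; exact Finset.sum_congr rfl fun a _ => (h a).add2 x y y' z
  add3 x y z z' := by
    rw [← Finset.sum_add_distrib]; exact Finset.sum_congr rfl fun a _ => (h a).add3 x y z z'
  smul1 c x y z := by
    rw [Finset.smul_sum]; exact Finset.sum_congr rfl fun a _ => (h a).smul1 c x y z
  smul2 c x y z := by
    rw [Finset.smul_sum]; exact Finset.sum_congr rfl fun a _ => (h a).smul2 c x y z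
  smul3 c x y z := by
    rw [Finset.smul_sum]; exact Finset.sum_congr rfl fun a _ => (h a).smul3 c x y z

theorem exists_rep2 (w : V ⊗[k] V) : ∃ (A : Type) (_ : Fintype A) (a b : A → V),
    w = ∑ i, a i ⊗ₜ[k] b i := by
  induction w using TensorProduct.induction_on with
  | zero => exact ⟨Empty, inferInstance, Empty.elim, Empty.elim, by simp⟩
  | tmul x y => exact ⟨Unit, inferInstance, fun _ => x, fun _ => y, by simp⟩
  | add x y hx hy =>
    obtain ⟨A, hA, a, b, rfl⟩ := hx
    obtain ⟨B, hB, a', b', rfl⟩ := hy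
    exact ⟨A ⊕ B, inferInstance, Sum.elim a a', Sum.elim b b', by
      rw [Fintype.sum_sum_type]; rfl⟩

theorem exists_rep3 (w : (V ⊗[k] V) ⊗[k] V) : ∃ (A : Type) (_ : Fintype A) (a b c : A → V),
    w = ∑ i, (a i ⊗ₜ[k] b i) ⊗ₜ[k] c i := by
  induction w using TensorProduct.induction_on with
  | zero => exact ⟨Empty, inferInstance, Empty.elim, Empty.elim, Empty.elim, by simp⟩
  | tmul x y =>
    obtain ⟨A, hA, a, b, rfl⟩ := exists_rep2 x
    exact ⟨A, hA, a, b, fun _ => y, by rw [TensorProduct.sum_tmul]⟩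
  | add x y hx hy =>
    obtain ⟨A, hA, a, b, c, rfl⟩ := hx
    obtain ⟨B, hB, a', b', c', rfl⟩ := hy
    exact ⟨A ⊕ B, inferInstance, Sum.elim a a', Sum.elim b b', Sum.elim c c', by
      rw [Fintype.sum_sum_type]; rfl⟩

/-- A functional on the cube, as a function of the middle variable. -/
noncomputable def leg2 (T : (V ⊗[k] V) ⊗[k] V →ₗ[k] k) (x z : V) : V →ₗ[k] k :=
  T ∘ₗ (TensorProduct.mk k (V ⊗[k] V) V).flip z ∘ₗ TensorProduct.mk k V V x

/-- A functional on the cube, as a function of the last variable. -/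
noncomputable def leg3 (T : (V ⊗[k] V) ⊗[k] V →ₗ[k] k) (x y : V) : V →ₗ[k] k :=
  T ∘ₗ TensorProduct.mk k (V ⊗[k] V) V (x ⊗ₜ y)

@[simp] theorem leg2_apply (T : (V ⊗[k] V) ⊗[k] V →ₗ[k] k) (x y z : V) :
    leg2 T x z y = T ((x ⊗ₜ y) ⊗ₜ z) := rfl

@[simp] theorem leg3_apply (T : (V ⊗[k] V) ⊗[k] V →ₗ[k] k) (x y z : V) :
    leg3 T x y z = T ((x ⊗ₜ y) ⊗ₜ z) := rfl

end Alg

section Main

variable {k G V : Type} [Field k] [Group G] [AddCommGroup V] [Module k V]

/-- Invariance of contractions of an invariant tensor. -/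
theorem inv_sum (ρ : Representation k G V) {A : Type} [Fintype A] (a b c : A → V)
    (hw : ∀ g, TensorProduct.map (TensorProduct.map (ρ g) (ρ g)) (ρ g)
      (∑ i, (a i ⊗ₜ[k] b i) ⊗ₜ[k] c i) = ∑ i, (a i ⊗ₜ[k] b i) ⊗ₜ[k] c i)
    {M : Type} [AddCommGroup M] [Module k M] {F : V → V → V → M} (hF : Tri (k := k) F) (g : G) :
    ∑ i, F (ρ g (a i)) (ρ g (b i)) (ρ g (c i)) = ∑ i, F (a i) (b i) (c i) := by
  obtain ⟨L, hL⟩ := hF.exists_lift
  have h := congrArg L (hw g)
  rw [map_sum, map_sum, map_sum] at h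
  simp only [TensorProduct.map_tmul, hL] at h
  exact h

/-- Symmetry of contractions of a symmetric tensor. -/
theorem sym_sum {A : Type} [Fintype A] (a b c : A → V)
    (hw : TensorProduct.map (TensorProduct.comm k V V).toLinearMap LinearMap.id
      (∑ i, (a i ⊗ₜ[k] b i) ⊗ₜ[k] c i) = ∑ i, (a i ⊗ₜ[k] b i) ⊗ₜ[k] c i)
    {M : Type} [AddCommGroup M] [Module k M] {F : V → V → V → M} (hF : Tri (k := k) F) :
    ∑ i, F (b i) (a i) (c i) = ∑ i, F (a i) (b i) (c i) := by
  obtain ⟨L, hL⟩ := hF.exists_lift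
  have h := congrArg L hw
  rw [map_sum, map_sum, map_sum] at h
  simp only [TensorProduct.map_tmul, LinearEquiv.coe_coe, TensorProduct.comm_tmul,
    LinearMap.id_apply, hL] at h
  exact h

/-- If the kernel of `T` is negligible, traces can be computed on the invariant vector. -/
theorem rule_trace [FiniteDimensional k V] (ρ : Representation k G V)
    (w : (V ⊗[k] V) ⊗[k] V) (T : (V ⊗[k] V) ⊗[k] V →ₗ[k] k)
    (hwG : ∀ g, TensorProduct.map (TensorProduct.map (ρ g) (ρ g)) (ρ g) w = w)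
    (hTG : ∀ g x, T (TensorProduct.map (TensorProduct.map (ρ g) (ρ g)) (ρ g) x) = T x)
    (hTw : T w = 1)
    (hneg : ∀ f : (V ⊗[k] V) ⊗[k] V →ₗ[k] (V ⊗[k] V) ⊗[k] V,
      (∀ g x, f (TensorProduct.map (TensorProduct.map (ρ g) (ρ g)) (ρ g) x) =
        TensorProduct.map (TensorProduct.map (ρ g) (ρ g)) (ρ g) (f x)) →
      (∀ x, T (f x) = 0) → f w = 0 → LinearMap.trace k _ f = 0)
    (f : (V ⊗[k] V) ⊗[k] V →ₗ[k] (V ⊗[k] V) ⊗[k] V)
    (hf : ∀ g x, f (TensorProduct.map (TensorProduct.map (ρ g) (ρ g)) (ρ g) x) =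
        TensorProduct.map (TensorProduct.map (ρ g) (ρ g)) (ρ g) (f x)) :
    LinearMap.trace k _ f = T (f w) := by
  -- subtract the parts through the one dimensional summand
  let f1 : (V ⊗[k] V) ⊗[k] V →ₗ[k] (V ⊗[k] V) ⊗[k] V := f + (-1 : k) • LinearMap.smulRight T (f w)
    + (-1 : k) • LinearMap.smulRight (T ∘ₗ f) w + T (f w) • LinearMap.smulRight T w
  have hf1 : ∀ x, f1 x = f x + (-1 : k) • T x • f w + (-1 : k) • T (f x) • w +
    T (f w) • T x • w := fun x => rfl
  have h1 := hneg f1 ?_ ?_ ?_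
  · have h2 : f1 = f + (-1 : k) • LinearMap.smulRight T (f w)
      + (-1 : k) • LinearMap.smulRight (T ∘ₗ f) w + T (f w) • LinearMap.smulRight T w := rfl
    rw [h2, map_add, map_add, map_add, map_smul, map_smul, map_smul, LinearMap.trace_smulRight,
      LinearMap.trace_smulRight, LinearMap.trace_smulRight, hTw, LinearMap.comp_apply] at h1
    simp only [smul_eq_mul, mul_one] at h1
    linear_combination h1
  · intro g x
    have hfw : TensorProduct.map (TensorProduct.map (ρ g) (ρ g)) (ρ g) (f w) = f w := by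
      rw [← hf, hwG]
    rw [hf1, hf1, hf, hTG, hTG]
    simp only [map_add, map_smul, hwG, hfw]
  · intro x
    rw [hf1]
    simp only [map_add, map_smul, hTw, smul_eq_mul, mul_one]
    ring
  · rw [hf1, hTw, one_smul, one_smul]
    module

/-- The value of the hexagonal contraction. -/
theorem hexagon [CharP k 2] [FiniteDimensional k V] (ρ : Representation k G V)
    (hodd : Odd (Module.finrank k V)) {A : Type} [Fintype A] (a b c : A → V)
    (T : (V ⊗[k] V) ⊗[k] V →ₗ[k] k)
    (hwG : ∀ g, TensorProduct.map (TensorProduct.map (ρ g) (ρ g)) (ρ g)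
      (∑ i, (a i ⊗ₜ[k] b i) ⊗ₜ[k] c i) = ∑ i, (a i ⊗ₜ[k] b i) ⊗ₜ[k] c i)
    (hTG : ∀ g x, T (TensorProduct.map (TensorProduct.map (ρ g) (ρ g)) (ρ g) x) = T x)
    (hTw : T (∑ i, (a i ⊗ₜ[k] b i) ⊗ₜ[k] c i) = 1)
    (hneg : ∀ f : (V ⊗[k] V) ⊗[k] V →ₗ[k] (V ⊗[k] V) ⊗[k] V,
      (∀ g x, f (TensorProduct.map (TensorProduct.map (ρ g) (ρ g)) (ρ g) x) =
        TensorProduct.map (TensorProduct.map (ρ g) (ρ g)) (ρ g) (f x)) →
      (∀ x, T (f x) = 0) → f (∑ i, (a i ⊗ₜ[k] b i) ⊗ₜ[k] c i) = 0 → LinearMap.trace k _ f = 0) :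
    ∑ α, ∑ β, ∑ γ, T ((a α ⊗ₜ a β) ⊗ₜ a γ) * T ((b α ⊗ₜ b β) ⊗ₜ b γ) *
      T ((c α ⊗ₜ c β) ⊗ₜ c γ) = 1 := by
  classical
  have hcast : ((Module.finrank k V : ℕ) : k) = 1 := by
    obtain ⟨n, hn⟩ := hodd
    rw [hn]
    push_cast
    rw [CharTwo.two_eq_zero, zero_mul, zero_add]
  have hT : ∀ g x y z, T ((ρ g x ⊗ₜ ρ g y) ⊗ₜ ρ g z) = T ((x ⊗ₜ y) ⊗ₜ z) := by
    intro g x y z
    have := hTG g ((x ⊗ₜ y) ⊗ₜ z)
    rw [TensorProduct.map_tmul, TensorProduct.map_tmul] at this
    exact this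
  have hR := rule_trace ρ _ T hwG hTG hTw hneg
  -- the two contractions
  let h : V →ₗ[k] V := ∑ α, LinearMap.smulRight (leg2 T (a α) (c α)) (b α)
  have hh : ∀ x, h x = ∑ α, T ((a α ⊗ₜ x) ⊗ₜ c α) • b α := by
    intro x
    simp only [h, LinearMap.sum_apply, LinearMap.smulRight_apply, leg2_apply]
  let g : V ⊗[k] V →ₗ[k] V ⊗[k] V := ∑ α, ∑ β, LinearMap.smulRight
    ((TensorProduct.lid k k).toLinearMap ∘ₗ
      TensorProduct.map (leg3 T (a α) (a β)) (leg3 T (b α) (b β))) (c α ⊗ₜ c β)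
  have hg : ∀ x y, g (x ⊗ₜ y) = ∑ α, ∑ β,
      (T ((a α ⊗ₜ a β) ⊗ₜ x) * T ((b α ⊗ₜ b β) ⊗ₜ y)) • (c α ⊗ₜ[k] c β) := by
    intro x y
    simp only [g, LinearMap.sum_apply, LinearMap.smulRight_apply, LinearMap.comp_apply,
      TensorProduct.map_tmul, leg3_apply, LinearEquiv.coe_coe, TensorProduct.lid_tmul,
      smul_eq_mul]
  have hhG : ∀ (s : G) x, h (ρ s x) = ρ s (h x) := by
    intro s x
    rw [hh, hh, map_sum]
    have h1 := inv_sum ρ a b c hwG (F := fun x1 x2 x3 => T ((x1 ⊗ₜ ρ s x) ⊗ₜ x3) • x2) (by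
      constructor <;> intros <;>
        (try simp only [TensorProduct.add_tmul, TensorProduct.tmul_add, TensorProduct.tmul_smul,
          ← TensorProduct.smul_tmul', map_add, map_smul, smul_eq_mul]) <;> module) s
    rw [← h1]
    refine Finset.sum_congr rfl fun α _ => ?_
    rw [hT, map_smul]
  have hgG : ∀ (s : G) x, g (TensorProduct.map (ρ s) (ρ s) x) =
      TensorProduct.map (ρ s) (ρ s) (g x) := by
    intro s x
    induction x using TensorProduct.induction_on with
    | zero => simp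
    | add x y hx hy => simp only [map_add, hx, hy]
    | tmul x y =>
      rw [TensorProduct.map_tmul, hg, hg, map_sum]
      have h1 := inv_sum ρ a b c hwG (F := fun x1 x2 x3 => ∑ β,
        (T ((x1 ⊗ₜ a β) ⊗ₜ ρ s x) * T ((x2 ⊗ₜ b β) ⊗ₜ ρ s y)) • (x3 ⊗ₜ[k] c β)) (Tri.sum fun β => by
        constructor <;> intros <;>
          (try simp only [TensorProduct.add_tmul, TensorProduct.tmul_add, TensorProduct.tmul_smul,
            ← TensorProduct.smul_tmul', map_add, map_smul, smul_eq_mul]) <;> module) s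
      rw [← h1]
      refine Finset.sum_congr rfl fun α _ => ?_
      have h2 := inv_sum ρ a b c hwG (F := fun x1 x2 x3 =>
        (T ((ρ s (a α) ⊗ₜ x1) ⊗ₜ ρ s x) * T ((ρ s (b α) ⊗ₜ x2) ⊗ₜ ρ s y)) •
          (ρ s (c α) ⊗ₜ[k] x3)) (by
        constructor <;> intros <;>
          (try simp only [TensorProduct.add_tmul, TensorProduct.tmul_add, TensorProduct.tmul_smul,
            ← TensorProduct.smul_tmul', map_add, map_smul, smul_eq_mul]) <;> module) s
      rw [← h2, map_sum]
      refine Finset.sum_congr rfl fun β _ => ?_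
      rw [hT, hT, map_smul, TensorProduct.map_tmul]
  have htrh : LinearMap.trace k _ h = 1 := by
    simp only [h]
    rw [map_sum, ← hTw, map_sum]
    refine Finset.sum_congr rfl fun α _ => ?_
    rw [LinearMap.trace_smulRight, leg2_apply]
  have htrg : LinearMap.trace k _ g = ∑ α, ∑ β, T ((a α ⊗ₜ a β) ⊗ₜ c α) *
      T ((b α ⊗ₜ b β) ⊗ₜ c β) := by
    simp only [g]
    rw [map_sum]
    refine Finset.sum_congr rfl fun α _ => ?_
    rw [map_sum]
    refine Finset.sum_congr rfl fun β _ => ?_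
    rw [LinearMap.trace_smulRight, LinearMap.comp_apply, TensorProduct.map_tmul, leg3_apply,
      leg3_apply]
    rfl
  -- first application
  have e1 := hR (TensorProduct.map (TensorProduct.map h LinearMap.id) LinearMap.id) (by
    intro s x
    induction x using TensorProduct.induction_on with
    | zero => simp
    | add x y hx hy => simp only [map_add, hx, hy]
    | tmul x z =>
      induction x using TensorProduct.induction_on with
      | zero => simp
      | add x y hx hy => simp only [map_add, TensorProduct.add_tmul, hx, hy]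
      | tmul x y => simp only [TensorProduct.map_tmul, hhG, LinearMap.id_apply])
  rw [LinearMap.trace_tensorProduct', LinearMap.trace_tensorProduct', htrh, LinearMap.trace_id,
    hcast, map_sum, map_sum] at e1
  have e2 : LinearMap.trace k _ g = 1 := by
    rw [htrg, Finset.sum_comm]
    have : (1 : k) = 1 * 1 * 1 := by ring
    rw [this, e1]
    refine Finset.sum_congr rfl fun β _ => ?_
    rw [TensorProduct.map_tmul, TensorProduct.map_tmul, hh, TensorProduct.sum_tmul,
      TensorProduct.sum_tmul, map_sum]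
    refine Finset.sum_congr rfl fun α _ => ?_
    rw [← TensorProduct.smul_tmul', ← TensorProduct.smul_tmul', map_smul]
    rfl
  -- second application
  have e3 := hR (TensorProduct.map g LinearMap.id) (by
    intro s x
    induction x using TensorProduct.induction_on with
    | zero => simp
    | add x y hx hy => simp only [map_add, hx, hy]
    | tmul x z =>
      rw [TensorProduct.map_tmul, TensorProduct.map_tmul, TensorProduct.map_tmul, hgG]
      rfl)
  rw [LinearMap.trace_tensorProduct', e2, LinearMap.trace_id, hcast, map_sum, map_sum,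
    mul_one] at e3
  rw [e3]
  have e4 : ∀ γ, T (TensorProduct.map g LinearMap.id ((a γ ⊗ₜ[k] b γ) ⊗ₜ[k] c γ)) =
      ∑ α, ∑ β, T ((a α ⊗ₜ a β) ⊗ₜ a γ) * T ((b α ⊗ₜ b β) ⊗ₜ b γ) *
        T ((c α ⊗ₜ c β) ⊗ₜ c γ) := by
    intro γ
    rw [TensorProduct.map_tmul, hg, TensorProduct.sum_tmul, map_sum]
    refine Finset.sum_congr rfl fun α _ => ?_
    rw [TensorProduct.sum_tmul, map_sum]
    refine Finset.sum_congr rfl fun β _ => ?_
    rw [← TensorProduct.smul_tmul', map_smul]
    rfl
  rw [Finset.sum_congr rfl fun γ _ => e4 γ]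
  symm
  rw [Finset.sum_comm]
  exact Finset.sum_congr rfl fun α _ => Finset.sum_comm

/-- If `V` is invertible of order three modulo negligible maps, neither the projection onto the
trivial summand nor its section is symmetric. -/
theorem thmC [IsAlgClosed k] [CharP k 2] [Finite G] [FiniteDimensional k V] (hG : IsPGroup 2 G)
    (ρ : Representation k G V) (hodd : Odd (Module.finrank k V)) (hind : Indec ρ)
    (hV : Module.finrank k V ≠ 1) (w : (V ⊗[k] V) ⊗[k] V) (T : (V ⊗[k] V) ⊗[k] V →ₗ[k] k)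
    (hwG : ∀ g, TensorProduct.map (TensorProduct.map (ρ g) (ρ g)) (ρ g) w = w)
    (hTG : ∀ g x, T (TensorProduct.map (TensorProduct.map (ρ g) (ρ g)) (ρ g) x) = T x)
    (hTw : T w = 1)
    (hneg : ∀ f : (V ⊗[k] V) ⊗[k] V →ₗ[k] (V ⊗[k] V) ⊗[k] V,
      (∀ g x, f (TensorProduct.map (TensorProduct.map (ρ g) (ρ g)) (ρ g) x) =
        TensorProduct.map (TensorProduct.map (ρ g) (ρ g)) (ρ g) (f x)) →
      (∀ x, T (f x) = 0) → f w = 0 → LinearMap.trace k _ f = 0) :
    TensorProduct.map (TensorProduct.comm k V V).toLinearMap LinearMap.id w ≠ w ∧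
    ¬ ∀ x, T (TensorProduct.map (TensorProduct.comm k V V).toLinearMap LinearMap.id x) = T x := by
  obtain ⟨A, hA, a, b, c, rfl⟩ := exists_rep3 w
  have hK := hexagon ρ hodd a b c T hwG hTG hTw hneg
  have hT : ∀ g x y z, T ((ρ g x ⊗ₜ ρ g y) ⊗ₜ ρ g z) = T ((x ⊗ₜ y) ⊗ₜ z) := by
    intro g x y z
    have := hTG g ((x ⊗ₜ y) ⊗ₜ z)
    rw [TensorProduct.map_tmul, TensorProduct.map_tmul] at this
    exact this
  constructor
  · intro hws
    have hF : Tri (k := k) (fun x1 x2 x3 : V => ∑ α, ∑ β, T ((x1 ⊗ₜ a α) ⊗ₜ a β) *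
        T ((x2 ⊗ₜ b α) ⊗ₜ b β) * T ((x3 ⊗ₜ c α) ⊗ₜ c β)) :=
      Tri.sum fun α => Tri.sum fun β => by
        constructor <;> intros <;>
          (try simp only [TensorProduct.add_tmul, TensorProduct.tmul_add, TensorProduct.tmul_smul,
            ← TensorProduct.smul_tmul', map_add, map_smul, smul_eq_mul]) <;> ring
    obtain ⟨L, hL⟩ := hF.exists_lift
    have h0 := thmB2 hG ρ hodd hind hV _ L hwG ?_ hws ?_
    · rw [map_sum] at h0
      simp only [hL] at h0
      exact one_ne_zero (hK.symm.trans h0)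
    · intro s x
      have : L ∘ₗ TensorProduct.map (TensorProduct.map (ρ s) (ρ s)) (ρ s) = L := by
        refine TensorProduct.ext_threefold fun x y z => ?_
        rw [LinearMap.comp_apply, TensorProduct.map_tmul, TensorProduct.map_tmul, hL, hL]
        have h1 := inv_sum ρ a b c hwG (F := fun x1 x2 x3 => ∑ β,
          T ((ρ s x ⊗ₜ x1) ⊗ₜ a β) * T ((ρ s y ⊗ₜ x2) ⊗ₜ b β) * T ((ρ s z ⊗ₜ x3) ⊗ₜ c β))
          (Tri.sum fun β => (by
            constructor <;> intros <;>
              (try simp only [TensorProduct.add_tmul, TensorProduct.tmul_add,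
                TensorProduct.tmul_smul, ← TensorProduct.smul_tmul', map_add, map_smul,
                smul_eq_mul]) <;> ring)) s
        rw [← h1]
        refine Finset.sum_congr rfl fun α _ => ?_
        have h2 := inv_sum ρ a b c hwG (F := fun x1 x2 x3 =>
          T ((ρ s x ⊗ₜ ρ s (a α)) ⊗ₜ x1) * T ((ρ s y ⊗ₜ ρ s (b α)) ⊗ₜ x2) *
            T ((ρ s z ⊗ₜ ρ s (c α)) ⊗ₜ x3)) (by
            constructor <;> intros <;>
              (try simp only [TensorProduct.add_tmul, TensorProduct.tmul_add,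
                TensorProduct.tmul_smul, ← TensorProduct.smul_tmul', map_add, map_smul,
                smul_eq_mul]) <;> ring) s
        rw [← h2]
        refine Finset.sum_congr rfl fun β _ => ?_
        rw [hT, hT, hT]
      exact LinearMap.congr_fun this x
    · intro x
      have : L ∘ₗ TensorProduct.map (TensorProduct.comm k V V).toLinearMap LinearMap.id = L := by
        refine TensorProduct.ext_threefold fun x y z => ?_
        rw [LinearMap.comp_apply, TensorProduct.map_tmul, LinearEquiv.coe_coe,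
          TensorProduct.comm_tmul, LinearMap.id_apply, hL, hL]
        have h1 := sym_sum a b c hws (F := fun x1 x2 x3 => ∑ β,
          T ((y ⊗ₜ x1) ⊗ₜ a β) * T ((x ⊗ₜ x2) ⊗ₜ b β) * T ((z ⊗ₜ x3) ⊗ₜ c β))
          (Tri.sum fun β => (by
            constructor <;> intros <;>
              (try simp only [TensorProduct.add_tmul, TensorProduct.tmul_add,
                TensorProduct.tmul_smul, ← TensorProduct.smul_tmul', map_add, map_smul,
                smul_eq_mul]) <;> ring))
        rw [← h1]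
        refine Finset.sum_congr rfl fun α _ => ?_
        have h2 := sym_sum a b c hws (F := fun x1 x2 x3 =>
          T ((y ⊗ₜ b α) ⊗ₜ x1) * T ((x ⊗ₜ a α) ⊗ₜ x2) * T ((z ⊗ₜ c α) ⊗ₜ x3)) (by
            constructor <;> intros <;>
              (try simp only [TensorProduct.add_tmul, TensorProduct.tmul_add,
                TensorProduct.tmul_smul, ← TensorProduct.smul_tmul', map_add, map_smul,
                smul_eq_mul]) <;> ring)
        rw [← h2]
        refine Finset.sum_congr rfl fun β _ => ?_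
        ring
      exact LinearMap.congr_fun this x
  · intro hTs
    have hTs' : ∀ x y z, T ((y ⊗ₜ x) ⊗ₜ z) = T ((x ⊗ₜ y) ⊗ₜ z) := by
      intro x y z
      have := hTs ((x ⊗ₜ y) ⊗ₜ z)
      rw [TensorProduct.map_tmul, LinearEquiv.coe_coe, TensorProduct.comm_tmul,
        LinearMap.id_apply] at this
      exact this
    let w' : (V ⊗[k] V) ⊗[k] V := ∑ α, ∑ β, ∑ γ, (T ((b α ⊗ₜ b β) ⊗ₜ b γ) *
      T ((c α ⊗ₜ c β) ⊗ₜ c γ)) • ((a α ⊗ₜ[k] a β) ⊗ₜ[k] a γ)
    have h0 := thmB2 hG ρ hodd hind hV w' T ?_ hTG ?_ hTs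
    · refine one_ne_zero (hK.symm.trans (Eq.trans ?_ h0))
      simp only [w']
      rw [map_sum]
      refine Finset.sum_congr rfl fun α _ => ?_
      rw [map_sum]
      refine Finset.sum_congr rfl fun β _ => ?_
      rw [map_sum]
      refine Finset.sum_congr rfl fun γ _ => ?_
      rw [map_smul, smul_eq_mul]
      ring
    · intro s
      simp only [w']
      rw [map_sum]
      have h1 := inv_sum ρ a b c hwG (F := fun x1 x2 x3 => ∑ β, ∑ γ,
        (T ((x2 ⊗ₜ b β) ⊗ₜ b γ) * T ((x3 ⊗ₜ c β) ⊗ₜ c γ)) • ((x1 ⊗ₜ[k] a β) ⊗ₜ[k] a γ))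
        (Tri.sum fun β => Tri.sum fun γ => (by
          constructor <;> intros <;>
            (try simp only [TensorProduct.add_tmul, TensorProduct.tmul_add,
              TensorProduct.tmul_smul, ← TensorProduct.smul_tmul', map_add, map_smul,
              smul_eq_mul]) <;> module)) s
      rw [← h1]
      refine Finset.sum_congr rfl fun α _ => ?_
      have h2 := inv_sum ρ a b c hwG (F := fun x1 x2 x3 => ∑ γ,
        (T ((ρ s (b α) ⊗ₜ x2) ⊗ₜ b γ) * T ((ρ s (c α) ⊗ₜ x3) ⊗ₜ c γ)) •
          ((ρ s (a α) ⊗ₜ[k] x1) ⊗ₜ[k] a γ)) (Tri.sum fun γ => (by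
          constructor <;> intros <;>
            (try simp only [TensorProduct.add_tmul, TensorProduct.tmul_add,
              TensorProduct.tmul_smul, ← TensorProduct.smul_tmul', map_add, map_smul,
              smul_eq_mul]) <;> module)) s
      rw [← h2, map_sum]
      refine Finset.sum_congr rfl fun β _ => ?_
      have h3 := inv_sum ρ a b c hwG (F := fun x1 x2 x3 =>
        (T ((ρ s (b α) ⊗ₜ ρ s (b β)) ⊗ₜ x2) * T ((ρ s (c α) ⊗ₜ ρ s (c β)) ⊗ₜ x3)) •
          ((ρ s (a α) ⊗ₜ[k] ρ s (a β)) ⊗ₜ[k] x1)) (by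
          constructor <;> intros <;>
            (try simp only [TensorProduct.add_tmul, TensorProduct.tmul_add,
              TensorProduct.tmul_smul, ← TensorProduct.smul_tmul', map_add, map_smul,
              smul_eq_mul]) <;> module) s
      rw [← h3, map_sum]
      refine Finset.sum_congr rfl fun γ _ => ?_
      rw [hT, hT, map_smul, TensorProduct.map_tmul, TensorProduct.map_tmul]
    · simp only [w']
      rw [map_sum]
      conv_rhs => rw [Finset.sum_comm]
      refine Finset.sum_congr rfl fun α _ => ?_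
      rw [map_sum]
      refine Finset.sum_congr rfl fun β _ => ?_
      rw [map_sum]
      refine Finset.sum_congr rfl fun γ _ => ?_
      rw [map_smul, TensorProduct.map_tmul, LinearEquiv.coe_coe, TensorProduct.comm_tmul,
        LinearMap.id_apply, hTs' (b β) (b α), hTs' (c β) (c α)]

end Main

end Pool.Agent.Helper38.Gamma
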